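import Pool.Agent.MP_ccce09_ag.Defs
import Pool.Agent.MP_ccce09_ag.Toric

-- part MP_ccce09_ag.Val
section

/-! Divisorial modules on a Noetherian normal domain. -/

set_option autoImplicit false
set_option linter.style.haveILetI false
set_option linter.unusedSectionVars false

namespace Pool.Agent.MP_ccce09_ag

variable {R : Type} [CommRing R] [IsDomain R] [IsNoetherianRing R] [IsIntegrallyClosed R]

lemma dvr (P : PrimeDiv R) : IsDiscreteValuationRing (Localization.AtPrime P.1.asIdeal) := by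
  have hd : ringKrullDim (Localization.AtPrime P.1.asIdeal) = 1 := by
    rw [IsLocalization.AtPrime.ringKrullDim_eq_height P.1.asIdeal, P.2]; rfl
  have hic : IsIntegrallyClosed (Localization.AtPrime P.1.asIdeal) :=
    isIntegrallyClosed_of_isLocalization _ P.1.asIdeal.primeCompl
      P.1.asIdeal.primeCompl_le_nonZeroDivisors
  have hnf : ¬ IsField (Localization.AtPrime P.1.asIdeal) := by
    intro h
    rw [ringKrullDim_eq_zero_of_isField h] at hd
    exact absurd hd (by decide)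
  have h1 : Ring.KrullDimLE 1 (Localization.AtPrime P.1.asIdeal) :=
    Ring.krullDimLE_iff.mpr (by rw [hd]; rfl)
  apply ((IsDiscreteValuationRing.TFAE _ hnf).out 0 3).mpr
  refine ⟨hic, _, ⟨IsLocalRing.isField_iff_maximalIdeal_eq.not.mp hnf, inferInstance⟩, ?_⟩
  rintro Q ⟨h2, h3⟩
  exact IsLocalRing.eq_maximalIdeal (Ring.krullDimLE_one_iff_of_noZeroDivisors.mp h1 Q h2 h3)

lemma alg_ne (P : PrimeDiv R) {a : R} (ha : a ≠ 0) :
    algebraMap R (Localization.AtPrime P.1.asIdeal) a ≠ 0 := by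
  rwa [Ne, map_eq_zero_iff _ (IsLocalization.injective _ P.1.asIdeal.primeCompl_le_nonZeroDivisors)]

lemma ordElt_spec (P : PrimeDiv R) {a : R} (ha : a ≠ 0) :
    haveI := dvr P
    ∃ n : ℕ, ordElt R P a = n ∧ IsDiscreteValuationRing.addVal _
      (algebraMap R (Localization.AtPrime P.1.asIdeal) a) = n := by
  haveI := dvr P
  have h : IsDiscreteValuationRing.addVal _
      (algebraMap R (Localization.AtPrime P.1.asIdeal) a) ≠ ⊤ := by
    rw [Ne, IsDiscreteValuationRing.addVal_eq_top_iff]; exact alg_ne P ha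
  obtain ⟨n, hn⟩ := ENat.ne_top_iff_exists.mp h
  exact ⟨n, by rw [ordElt, Ring.ord_eq_addVal, ← hn]; simp, hn.symm⟩

omit [IsDomain R] [IsNoetherianRing R] [IsIntegrallyClosed R] in
lemma ordElt_nonneg (P : PrimeDiv R) (a : R) : 0 ≤ ordElt R P a := Int.natCast_nonneg _

lemma ordElt_mul (P : PrimeDiv R) {a b : R} (ha : a ≠ 0) (hb : b ≠ 0) :
    ordElt R P (a * b) = ordElt R P a + ordElt R P b := by
  haveI := dvr P
  obtain ⟨n, h1, h2⟩ := ordElt_spec P ha
  obtain ⟨m, h3, h4⟩ := ordElt_spec P hb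
  obtain ⟨l, h5, h6⟩ := ordElt_spec P (mul_ne_zero ha hb)
  rw [map_mul, IsDiscreteValuationRing.addVal_mul, h2, h4] at h6
  have : n + m = l := by exact_mod_cast h6
  omega

lemma ordElt_add (P : PrimeDiv R) {a b : R} (ha : a ≠ 0) (hb : b ≠ 0) (hab : a + b ≠ 0) :
    min (ordElt R P a) (ordElt R P b) ≤ ordElt R P (a + b) := by
  haveI := dvr P
  obtain ⟨n, h1, h2⟩ := ordElt_spec P ha
  obtain ⟨m, h3, h4⟩ := ordElt_spec P hb
  obtain ⟨l, h5, h6⟩ := ordElt_spec P hab
  have := IsDiscreteValuationRing.addVal_add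
    (a := algebraMap R (Localization.AtPrime P.1.asIdeal) a)
    (b := algebraMap R (Localization.AtPrime P.1.asIdeal) b)
  rw [← map_add, h2, h4, h6] at this
  rw [min_le_iff, Nat.cast_le, Nat.cast_le] at this
  omega

lemma ordElt_eq_zero_iff (P : PrimeDiv R) {a : R} (ha : a ≠ 0) :
    ordElt R P a = 0 ↔ a ∉ P.1.asIdeal := by
  haveI := dvr P
  obtain ⟨n, h1, h2⟩ := ordElt_spec P ha
  rw [← Ideal.mem_primeCompl_iff, ← IsLocalization.AtPrime.isUnit_to_map_iff
    (Localization.AtPrime P.1.asIdeal) P.1.asIdeal, ← IsDiscreteValuationRing.addVal_eq_zero_iff,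
    h1, h2]
  simp

lemma exists_mul_of_ordElt_le (P : PrimeDiv R) {a b : R} (ha : a ≠ 0) (hb : b ≠ 0)
    (h : ordElt R P b ≤ ordElt R P a) : ∃ s ∉ P.1.asIdeal, ∃ r, s * a = r * b := by
  haveI := dvr P
  obtain ⟨n, h1, h2⟩ := ordElt_spec P ha
  obtain ⟨m, h3, h4⟩ := ordElt_spec P hb
  obtain ⟨c, hc⟩ := IsDiscreteValuationRing.addVal_le_iff_dvd.mp
    (show IsDiscreteValuationRing.addVal _ (algebraMap R (Localization.AtPrime P.1.asIdeal) b) ≤
      IsDiscreteValuationRing.addVal _ (algebraMap R (Localization.AtPrime P.1.asIdeal) a) by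
      rw [h2, h4]; exact_mod_cast (by omega : m ≤ n))
  obtain ⟨⟨r, s⟩, hs⟩ := IsLocalization.surj P.1.asIdeal.primeCompl c
  refine ⟨s, s.2, r, ?_⟩
  apply IsLocalization.injective (Localization.AtPrime P.1.asIdeal)
    P.1.asIdeal.primeCompl_le_nonZeroDivisors
  simp only [map_mul] at hs ⊢
  rw [hc, ← hs]; ring

lemma exists_uniformizer (P : PrimeDiv R) : ∃ a : R, a ≠ 0 ∧ ordElt R P a = 1 := by
  haveI := dvr P
  obtain ⟨ϖ, hϖ⟩ := IsDiscreteValuationRing.exists_irreducible (Localization.AtPrime P.1.asIdeal)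
  obtain ⟨⟨r, s⟩, hs⟩ := IsLocalization.surj P.1.asIdeal.primeCompl ϖ
  have hu : IsUnit (algebraMap R (Localization.AtPrime P.1.asIdeal) s) :=
    IsLocalization.map_units _ s
  have hr : r ≠ 0 := by
    rintro rfl
    simp only [map_zero] at hs
    exact hϖ.ne_zero ((mul_eq_zero.mp hs).resolve_right hu.ne_zero)
  obtain ⟨n, h1, h2⟩ := ordElt_spec P hr
  refine ⟨r, hr, ?_⟩
  simp only at hs
  rw [← hs, IsDiscreteValuationRing.addVal_mul, IsDiscreteValuationRing.addVal_uniformizer hϖ,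
    IsDiscreteValuationRing.addVal_eq_zero_iff.mpr hu] at h2
  have : 1 = n := by exact_mod_cast h2
  omega

omit [IsNoetherianRing R] [IsIntegrallyClosed R] in
lemma algK_ne {a : R} (ha : a ≠ 0) : algebraMap R (FractionRing R) a ≠ 0 := by
  rwa [Ne, map_eq_zero_iff _ (IsFractionRing.injective R _)]

lemma ordAt_eq (P : PrimeDiv R) {f : FractionRing R} {a b : R} (ha : a ≠ 0) (hb : b ≠ 0)
    (h : f * algebraMap R _ b = algebraMap R _ a) : ordAt R P f = ordElt R P a - ordElt R P b := by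
  have h1 := IsLocalization.sec_spec (nonZeroDivisors R) f
  set a' := (IsLocalization.sec (nonZeroDivisors R) f).1
  set b' := (IsLocalization.sec (nonZeroDivisors R) f).2
  have hb' : (b' : R) ≠ 0 := nonZeroDivisors.coe_ne_zero b'
  have e : a * b' = a' * b := by
    apply IsFractionRing.injective R (FractionRing R)
    rw [map_mul, map_mul, ← h, ← h1]; ring
  have ha' : a' ≠ 0 := by
    rintro h0
    rw [h0, zero_mul] at e
    exact mul_ne_zero ha hb' e
  have := congrArg (ordElt R P) e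
  rw [ordElt_mul P ha hb', ordElt_mul P ha' hb] at this
  change ordElt R P a' - ordElt R P b' = _
  omega

omit [IsNoetherianRing R] [IsIntegrallyClosed R] in
lemma exists_frac {f : FractionRing R} (hf : f ≠ 0) :
    ∃ a b : R, a ≠ 0 ∧ b ≠ 0 ∧ f * algebraMap R _ b = algebraMap R _ a := by
  obtain ⟨⟨a, b⟩, h⟩ := IsLocalization.surj (nonZeroDivisors R) f
  have hb : (b : R) ≠ 0 := nonZeroDivisors.coe_ne_zero b
  refine ⟨a, b, ?_, hb, h⟩
  rintro rfl
  simp only [map_zero] at h
  exact mul_ne_zero hf (algK_ne hb) h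

lemma ordElt_one (P : PrimeDiv R) : ordElt R P 1 = 0 :=
  (ordElt_eq_zero_iff P one_ne_zero).mpr (P.1.asIdeal.ne_top_iff_one.mp P.1.2.ne_top)

lemma ordAt_alg (P : PrimeDiv R) {a : R} (ha : a ≠ 0) :
    ordAt R P (algebraMap R _ a) = ordElt R P a := by
  rw [ordAt_eq P ha one_ne_zero (by simp), ordElt_one, sub_zero]

lemma ordAt_alg_nonneg (P : PrimeDiv R) {a : R} (ha : a ≠ 0) :
    0 ≤ ordAt R P (algebraMap R _ a) := by
  rw [ordAt_alg P ha]; exact ordElt_nonneg P a

lemma ordAt_mul (P : PrimeDiv R) {f g : FractionRing R} (hf : f ≠ 0) (hg : g ≠ 0) :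
    ordAt R P (f * g) = ordAt R P f + ordAt R P g := by
  obtain ⟨a, b, ha, hb, h1⟩ := exists_frac hf
  obtain ⟨c, d, hc, hd, h2⟩ := exists_frac hg
  rw [ordAt_eq P ha hb h1, ordAt_eq P hc hd h2, ordAt_eq P (mul_ne_zero ha hc) (mul_ne_zero hb hd)
    (by rw [map_mul, map_mul, ← h1, ← h2]; ring), ordElt_mul P ha hc, ordElt_mul P hb hd]
  ring

lemma ordAt_one (P : PrimeDiv R) : ordAt R P 1 = 0 := by
  have := ordAt_alg P (one_ne_zero (α := R))
  rwa [map_one, ordElt_one] at this

lemma ordAt_inv (P : PrimeDiv R) {f : FractionRing R} (hf : f ≠ 0) :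
    ordAt R P f⁻¹ = - ordAt R P f := by
  have := ordAt_mul P hf (inv_ne_zero hf)
  rw [mul_inv_cancel₀ hf, ordAt_one] at this
  omega

lemma ordAt_pow (P : PrimeDiv R) {f : FractionRing R} (hf : f ≠ 0) (n : ℕ) :
    ordAt R P (f ^ n) = n * ordAt R P f := by
  induction n with
  | zero => simp [ordAt_one]
  | succ n ih => rw [pow_succ, ordAt_mul P (pow_ne_zero _ hf) hf, ih]; push_cast; ring

lemma ordAt_zpow (P : PrimeDiv R) {f : FractionRing R} (hf : f ≠ 0) (n : ℤ) :
    ordAt R P (f ^ n) = n * ordAt R P f := by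
  rcases Int.eq_nat_or_neg n with ⟨m, rfl | rfl⟩
  · rw [zpow_natCast, ordAt_pow P hf]
  · rw [zpow_neg, zpow_natCast, ordAt_inv P (pow_ne_zero _ hf), ordAt_pow P hf]; ring

lemma ordAt_add (P : PrimeDiv R) {f g : FractionRing R} (hf : f ≠ 0) (hg : g ≠ 0)
    (hfg : f + g ≠ 0) : min (ordAt R P f) (ordAt R P g) ≤ ordAt R P (f + g) := by
  obtain ⟨a, b, ha, hb, h1⟩ := exists_frac hf
  obtain ⟨c, d, hc, hd, h2⟩ := exists_frac hg
  have e : (f + g) * algebraMap R _ (b * d) = algebraMap R _ (a * d + c * b) := by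
    rw [map_add, map_mul, map_mul, map_mul, ← h1, ← h2]; ring
  have hn : a * d + c * b ≠ 0 := by
    intro h0
    rw [h0, map_zero] at e
    exact mul_ne_zero hfg (algK_ne (mul_ne_zero hb hd)) e
  have := ordElt_add P (mul_ne_zero ha hd) (mul_ne_zero hc hb) hn
  rw [ordAt_eq P ha hb h1, ordAt_eq P hc hd h2, ordAt_eq P hn (mul_ne_zero hb hd) e,
    ordElt_mul P hb hd]
  rw [ordElt_mul P ha hd, ordElt_mul P hc hb] at this
  omega

lemma mem_divMod {D : PrimeDiv R → ℤ} {f : FractionRing R} :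
    f ∈ divMod R D ↔ f = 0 ∨ ∀ P, 0 ≤ ordAt R P f + D P := by
  constructor
  · intro h
    induction h using Submodule.span_induction with
    | mem x hx => exact Or.inr hx.2
    | zero => exact Or.inl rfl
    | add x y _ _ hx hy =>
      by_cases h0 : x + y = 0
      · exact Or.inl h0
      by_cases hx0 : x = 0
      · rw [hx0, zero_add]; exact hy
      by_cases hy0 : y = 0
      · rw [hy0, add_zero]; exact hx
      right
      intro P
      have := ordAt_add P hx0 hy0 h0
      have := hx.resolve_left hx0 P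
      have := hy.resolve_left hy0 P
      omega
    | smul a x _ hx =>
      by_cases ha : a = 0
      · left; simp [ha]
      by_cases hx0 : x = 0
      · left; simp [hx0]
      right
      intro P
      rw [Algebra.smul_def, ordAt_mul P (algK_ne ha) hx0]
      have := hx.resolve_left hx0 P
      have := ordAt_alg_nonneg P ha
      omega
  · intro h
    by_cases h0 : f = 0
    · rw [h0]; exact zero_mem _
    · exact Submodule.subset_span ⟨h0, h.resolve_left h0⟩

lemma mem_range_of_ord {f : FractionRing R} (h : ∀ P, 0 ≤ ordAt R P f) :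
    ∃ r : R, algebraMap R _ r = f := by
  by_cases hf : f = 0
  · exact ⟨0, by simp [hf]⟩
  obtain ⟨a, b, ha, hb, h1⟩ := exists_frac hf
  by_contra hcon
  have hx : (Ideal.Quotient.mk (Ideal.span {b}) a) ≠ 0 := by
    rw [Ne, Ideal.Quotient.eq_zero_iff_mem, Ideal.mem_span_singleton']
    rintro ⟨c, rfl⟩
    exact hcon ⟨c, mul_right_cancel₀ (algK_ne hb) (by rw [h1, map_mul])⟩
  obtain ⟨P, hP, hle⟩ := exists_le_isAssociatedPrime_of_isNoetherianRing R _ hx
  obtain ⟨hPp, c', hc'⟩ := isAssociatedPrime_iff.mp hP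
  obtain ⟨c, rfl⟩ := Ideal.Quotient.mk_surjective c'
  have memP : ∀ m, m ∈ P ↔ ∃ k, k * b = m * c := by
    intro m
    rw [hc', Submodule.mem_colon_singleton, Submodule.mem_bot, ← Ideal.mem_span_singleton',
      ← Ideal.Quotient.eq_zero_iff_mem, map_mul]
    rfl
  have hbP : b ∈ P := (memP b).mpr ⟨c, mul_comm _ _⟩
  let y : FractionRing R := algebraMap R _ c / algebraMap R _ b
  let M := Submodule.map (Algebra.linearMap R (FractionRing R)) P
  have hy : ∀ m k, k * b = m * c → y * algebraMap R _ m = algebraMap R _ k := by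
    intro m k hk
    simp only [y]
    rw [div_mul_eq_mul_div, div_eq_iff (algK_ne hb), ← map_mul, ← map_mul, hk, mul_comm]
  obtain ⟨t, ht, u, hu, htu⟩ : ∃ t ∈ P, ∃ u ∉ P, u * b = t * c := by
    by_contra h0
    push Not at h0
    have hint := isIntegral_of_smul_mem_submodule M
      (by rw [Submodule.ne_bot_iff]; exact ⟨_, ⟨b, hbP, rfl⟩, algK_ne hb⟩)
      (Submodule.FG.map _ (IsNoetherian.noetherian _)) y (by
        rintro _ ⟨m, hm, rfl⟩
        obtain ⟨k, hk⟩ := (memP m).mp hm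
        refine ⟨k, ?_, (hy m k hk).symm⟩
        by_contra hk2
        exact h0 m hm k hk2 hk)
    obtain ⟨z, hz⟩ := IsIntegrallyClosed.algebraMap_eq_of_integral hint
    apply hPp.ne_top
    rw [Ideal.eq_top_iff_one, memP]
    refine ⟨z, ?_⟩
    apply IsFractionRing.injective R (FractionRing R)
    rw [map_mul, hz, one_mul]
    exact div_mul_cancel₀ _ (algK_ne hb)
  have hmin : P ∈ (Ideal.span {t}).minimalPrimes := by
    refine ⟨⟨hPp, by rwa [Ideal.span_singleton_le_iff_mem]⟩, ?_⟩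
    rintro Q ⟨hQ, hQt⟩ hQP m hm
    rw [Ideal.span_singleton_le_iff_mem] at hQt
    obtain ⟨k, hk⟩ := (memP m).mp hm
    have : u * m = k * t := by
      apply mul_right_cancel₀ hb
      linear_combination m * htu - t * hk
    have h2 : u * m ∈ Q := this ▸ Q.mul_mem_left k hQt
    exact (hQ.mem_or_mem h2).resolve_left fun h3 => hu (hQP h3)
  have h1le := Ideal.height_le_one_of_isPrincipal_of_mem_minimalPrimes _ _ hmin
  have hne : P.height ≠ 0 := by
    rw [Ne, Ideal.height_eq_zero_iff_eq_bot]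
    intro h0; rw [h0] at hbP; exact hb hbP
  have hP1 : P.height = 1 := le_antisymm h1le (Order.one_le_iff_ne_zero.mpr hne)
  let P' : PrimeDiv R := ⟨⟨P, hPp⟩, hP1⟩
  have h2 := h P'
  rw [ordAt_eq P' ha hb h1] at h2
  obtain ⟨s, hs, r, hsr⟩ := exists_mul_of_ordElt_le P' ha hb (by omega)
  apply hs
  apply hle
  rw [Submodule.mem_colon_singleton, Submodule.mem_bot]
  change Ideal.Quotient.mk _ (s * a) = 0
  rw [Ideal.Quotient.eq_zero_iff_mem, Ideal.mem_span_singleton']
  exact ⟨r, hsr.symm⟩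

omit [IsIntegrallyClosed R] in
lemma finite_mem {a : R} (ha : a ≠ 0) : {P : PrimeDiv R | a ∈ P.1.asIdeal}.Finite := by
  refine Set.Finite.of_finite_image (f := fun P => P.1.asIdeal) ?_ ?_
  · refine (Ideal.finite_minimalPrimes_of_isNoetherianRing R (Ideal.span {a})).subset ?_
    rintro _ ⟨P, hP, rfl⟩
    have := P.1.2
    refine Ideal.mem_minimalPrimes_of_height_le (by rwa [Ideal.span_singleton_le_iff_mem]) ?_
    rw [P.2]
    exact Ideal.one_le_height_span_singleton_of_mem_nonZeroDivisors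
      (mem_nonZeroDivisors_of_ne_zero ha)
  · intro P _ Q _ h
    exact Subtype.ext (PrimeSpectrum.ext h)

lemma finite_ord {f : FractionRing R} (hf : f ≠ 0) : {P | ordAt R P f ≠ 0}.Finite := by
  obtain ⟨a, b, ha, hb, h1⟩ := exists_frac hf
  refine ((finite_mem ha).union (finite_mem hb)).subset ?_
  intro P hP
  by_contra h
  simp only [Set.mem_union, Set.mem_ofPred_eq, not_or] at h
  apply hP
  rw [ordAt_eq P ha hb h1, (ordElt_eq_zero_iff P ha).mpr h.1, (ordElt_eq_zero_iff P hb).mpr h.2]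
  rfl

omit [IsDomain R] [IsIntegrallyClosed R] in
lemma exists_sep {P Q : PrimeDiv R} (h : Q ≠ P) : ∃ t ∈ Q.1.asIdeal, t ∉ P.1.asIdeal := by
  by_contra h0
  push Not at h0
  apply h
  have := P.1.2
  have := Q.1.2
  refine Subtype.ext (PrimeSpectrum.ext ?_)
  exact Ideal.eq_of_le_of_height_le _ (show Q.1.asIdeal ≤ P.1.asIdeal from h0) (by rw [P.2, Q.2])

/-- approximation -/
lemma exists_approx (D : PrimeDiv R → ℤ) (hD : {P | D P ≠ 0}.Finite) (P0 : PrimeDiv R) :
    ∃ f : FractionRing R, f ≠ 0 ∧ ordAt R P0 f + D P0 = 0 ∧ ∀ P, 0 ≤ ordAt R P f + D P := by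
  classical
  obtain ⟨π, hπ, hπ1⟩ := exists_uniformizer P0
  set f0 : FractionRing R := (algebraMap R _ π) ^ (-D P0) with hf0
  have hf0n : f0 ≠ 0 := zpow_ne_zero _ (algK_ne hπ)
  have h0 : ordAt R P0 f0 + D P0 = 0 := by
    rw [hf0, ordAt_zpow P0 (algK_ne hπ), ordAt_alg P0 hπ, hπ1]; ring
  have hfin := (hD.union (finite_ord hf0n))
  have key : ∀ s : Finset (PrimeDiv R), ∃ t : R, t ∉ P0.1.asIdeal ∧
      ∀ P ∈ s, P ≠ P0 → 0 ≤ ordElt R P t + ordAt R P f0 + D P := by
    intro s
    induction s using Finset.induction_on with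
    | empty => exact ⟨1, P0.1.asIdeal.ne_top_iff_one.mp P0.1.2.ne_top, by simp⟩
    | insert Q s _ ih =>
      obtain ⟨t, ht, h1⟩ := ih
      by_cases hQ : Q = P0
      · refine ⟨t, ht, fun P hP hP0 => h1 P ?_ hP0⟩
        rcases Finset.mem_insert.mp hP with rfl | h
        · exact absurd hQ hP0
        · exact h
      obtain ⟨u, hu, hu2⟩ := exists_sep hQ
      have hu0 : u ≠ 0 := by rintro rfl; exact hu2 (zero_mem _)
      have ht0 : t ≠ 0 := by rintro rfl; exact ht (zero_mem _)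
      set N := (ordAt R Q f0 + D Q).natAbs
      have hpow : ∀ P, ordElt R P (u ^ N) = N * ordElt R P u := fun P => by
        rw [← ordAt_alg P (pow_ne_zero _ hu0), map_pow, ordAt_pow P (algK_ne hu0), ordAt_alg P hu0]
      refine ⟨t * u ^ N, fun h => ?_, fun P hP hP0 => ?_⟩
      · rcases P0.1.2.mem_or_mem h with h | h
        · exact ht h
        · exact hu2 (P0.1.2.mem_of_pow_mem _ h)
      · rw [ordElt_mul P ht0 (pow_ne_zero _ hu0), hpow]
        have a1 := ordElt_nonneg P u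
        have a2 := ordElt_nonneg P t
        rcases Finset.mem_insert.mp hP with rfl | h
        · have a3 : ordElt R P u ≠ 0 := fun h => (ordElt_eq_zero_iff P hu0).mp h hu
          have a4 : (N : ℤ) ≤ N * ordElt R P u := le_mul_of_one_le_right (by positivity) (by omega)
          omega
        · have := h1 P h hP0
          have : (0 : ℤ) ≤ N * ordElt R P u := by positivity
          omega
  obtain ⟨t, ht, h1⟩ := key hfin.toFinset
  have ht0 : t ≠ 0 := by rintro rfl; exact ht (zero_mem _)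
  refine ⟨algebraMap R _ t * f0, mul_ne_zero (algK_ne ht0) hf0n, ?_, fun P => ?_⟩
  · rw [ordAt_mul _ (algK_ne ht0) hf0n, ordAt_alg _ ht0, (ordElt_eq_zero_iff _ ht0).mpr ht]
    omega
  · rw [ordAt_mul _ (algK_ne ht0) hf0n, ordAt_alg _ ht0]
    have a2 := ordElt_nonneg P t
    by_cases hP0 : P = P0
    · subst hP0; omega
    by_cases hP : P ∈ hfin.toFinset
    · exact h1 P hP hP0
    · simp only [Set.Finite.mem_toFinset, Set.mem_union, Set.mem_ofPred_eq, not_or, not_not] at hP
      omega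

/-- colon of divisorial modules -/
lemma ord_of_colon (D E : PrimeDiv R → ℤ) (hD : {P | D P ≠ 0}.Finite) {h : FractionRing R}
    (h0 : h ≠ 0) (hh : ∀ y ∈ divMod R D, h * y ∈ divMod R E) (P : PrimeDiv R) :
    0 ≤ ordAt R P h + (E P - D P) := by
  obtain ⟨f, hf, h1, h2⟩ := exists_approx D hD P
  have := (mem_divMod.mp (hh f (mem_divMod.mpr (Or.inr h2)))).resolve_left (mul_ne_zero h0 hf) P
  rw [ordAt_mul P h0 hf] at this
  omega

end Pool.Agent.MP_ccce09_ag

end

-- part MP_ccce09_ag.Mono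
section

/-! Monomial submodules of the fraction field. -/

set_option autoImplicit false
set_option linter.style.haveILetI false
set_option linter.unusedSectionVars false

open AddMonoidAlgebra

namespace Pool.Agent.MP_ccce09_ag

variable (p : ℕ) [Fact p.Prime]

abbrev KK : Type := FractionRing (RR p)

/-- inclusion into Laurent polynomials -/
noncomputable def iota : R0 p →ₐ[ZMod p] T p :=
  AddMonoidAlgebra.mapDomainAlgHom (ZMod p) (ZMod p) sig.subtype

lemma iota_single (w : sig) (c : ZMod p) : iota p (single w c) = single w.1 c :=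
  AddMonoidAlgebra.mapDomain_single

lemma iota_inj : Function.Injective (iota p) :=
  AddMonoidAlgebra.mapDomain_injective Subtype.val_injective

lemma coeff_iota (a : R0 p) (w : sig) : (iota p a).coeff w.1 = a.coeff w :=
  Finsupp.mapDomain_apply Subtype.val_injective _ _

/-- Laurent polynomials supported on `A` -/
noncomputable abbrev TA (A : Set M) : Submodule (ZMod p) (T p) := supported (ZMod p) (ZMod p) A

variable {p}

lemma mem_TA {A : Set M} {f : T p} : f ∈ TA p A ↔ ∀ w, f.coeff w ≠ 0 → w ∈ A := by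
  rw [mem_supported]
  exact ⟨fun h w hw => h (by simpa using hw), fun h w hw => h w (by simpa using hw)⟩

lemma TA_mono {A B : Set M} (h : A ⊆ B) {f : T p} (hf : f ∈ TA p A) : f ∈ TA p B :=
  supported_mono h hf

lemma single_mem_TA {A : Set M} {w : M} (h : w ∈ A) (c : ZMod p) : single w c ∈ TA p A := by
  rw [mem_TA]
  intro v hv
  rw [coeff_single, Finsupp.single_apply] at hv
  by_cases e : w = v
  · rwa [← e]
  · simp [e] at hv

lemma TA_mul {A B C : Set M} {f g : T p} (hf : f ∈ TA p A) (hg : g ∈ TA p B)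
    (h : ∀ a ∈ A, ∀ b ∈ B, a + b ∈ C) : f * g ∈ TA p C := by
  classical
  rw [mem_supported] at *
  intro w hw
  obtain ⟨a, ha, b, hb, rfl⟩ := Finset.mem_add.mp (support_coeff_mul_subset f g hw)
  exact h a (hf ha) b (hg hb)

lemma TA_induction {A : Set M} {P : T p → Prop} {f : T p} (hf : f ∈ TA p A) (h0 : P 0)
    (hadd : ∀ a b, P a → P b → P (a + b)) (hs : ∀ w ∈ A, ∀ c, P (single w c)) : P f := by
  rw [← sum_coeff_single f, Finsupp.sum]
  refine Finset.sum_induction _ P hadd h0 fun w hw => hs w (mem_TA.mp hf w (by simpa using hw)) _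

lemma iota_mem (a : R0 p) : iota p a ∈ TA p sig := by
  induction a using AddMonoidAlgebra.induction_linear with
  | zero => simp
  | add a b ha hb => rw [map_add]; exact add_mem ha hb
  | single w c => rw [iota_single]; exact single_mem_TA w.2 c

lemma exists_iota {f : T p} (hf : f ∈ TA p sig) : ∃ a, iota p a = f := by
  refine TA_induction (P := fun f => ∃ a, iota p a = f) hf ⟨0, by simp⟩ ?_ ?_
  · rintro _ _ ⟨a, rfl⟩ ⟨b, rfl⟩; exact ⟨a + b, by simp⟩
  · intro w hw c; exact ⟨single ⟨w, hw⟩ c, iota_single p _ _⟩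

lemma iota_mem_m0 {a : R0 p} : a ∈ m0 p ↔ iota p a ∈ TA p {w | w ∈ sig ∧ w ≠ 0} := by
  rw [mem_m0, ev0_eq, ← coeff_iota, mem_TA]
  constructor
  · intro h w hw
    refine ⟨mem_TA.mp (iota_mem a) w hw, ?_⟩
    rintro rfl
    exact hw h
  · intro h
    by_contra h0
    exact (h _ h0).2 rfl

variable (p)

noncomputable def al0 : R0 p →+* KK p := algebraMap (R0 p) (KK p)

lemma al0_eq (a : R0 p) : al0 p a = algebraMap (RR p) (KK p) (algebraMap (R0 p) (RR p) a) :=
  IsScalarTower.algebraMap_apply _ _ _ _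

lemma alg_inj : Function.Injective (algebraMap (R0 p) (RR p)) :=
  IsLocalization.injective _ (m0 p).primeCompl_le_nonZeroDivisors

lemma al0_inj : Function.Injective (al0 p) := fun a b h => by
  rw [al0_eq, al0_eq] at h
  exact alg_inj p (IsFractionRing.injective _ _ h)

lemma al0_ne {a : R0 p} (h : a ≠ 0) : al0 p a ≠ 0 := by
  rwa [Ne, map_eq_zero_iff _ (al0_inj p)]

noncomputable def mon (w : sig) : KK p := al0 p (single w 1)

lemma mon_ne (w : sig) : mon p w ≠ 0 := al0_ne p (by simp)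

lemma mon_add (a b : sig) : mon p (a + b) = mon p a * mon p b := by
  rw [mon, mon, mon, ← map_mul, single_mul_single, one_mul]

lemma mon_nsmul (n : ℕ) (a : sig) : mon p (n • a) = mon p a ^ n := by
  rw [mon, mon, ← map_pow, single_pow, one_pow]

/-- Laurent monomials in the fraction field -/
noncomputable def XX (w : M) : KK p :=
  (mon p b0 / mon p a0) ^ w.1 * (mon p a1 / mon p a0) ^ w.2.1 * mon p a0 ^ w.2.2

lemma XX_ne (w : M) : XX p w ≠ 0 :=
  mul_ne_zero (mul_ne_zero (zpow_ne_zero _ (div_ne_zero (mon_ne p _) (mon_ne p _)))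
    (zpow_ne_zero _ (div_ne_zero (mon_ne p _) (mon_ne p _)))) (zpow_ne_zero _ (mon_ne p _))

lemma XX_zero : XX p 0 = 1 := by simp [XX]

lemma XX_add (a b : M) : XX p (a + b) = XX p a * XX p b := by
  simp only [XX, Prod.fst_add, Prod.snd_add]
  rw [zpow_add₀ (div_ne_zero (mon_ne p _) (mon_ne p _)),
    zpow_add₀ (div_ne_zero (mon_ne p _) (mon_ne p _)), zpow_add₀ (mon_ne p _)]
  ring

lemma XX_nsmul (n : ℕ) (a : M) : XX p (n • a) = XX p a ^ n := by
  induction n with
  | zero => simp [XX_zero]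
  | succ n ih => rw [succ_nsmul, XX_add, ih, pow_succ]

lemma XX_coe (w : sig) : XX p w.1 = mon p w := by
  obtain ⟨⟨i, j, n⟩, h⟩ := w
  have h' := mem_sig.mp h
  simp only at h'
  obtain ⟨i, rfl⟩ := Int.eq_ofNat_of_zero_le h'.1
  obtain ⟨j, rfl⟩ := Int.eq_ofNat_of_zero_le h'.2.1
  obtain ⟨n, rfl⟩ := Int.eq_ofNat_of_zero_le (by omega : 0 ≤ n)
  simp only [XX, zpow_natCast, div_pow]
  have h0 := mon_ne p a0
  field_simp
  rw [← mon_nsmul, ← mon_nsmul, ← mon_nsmul, ← mon_nsmul, ← mon_nsmul, ← mon_add, ← mon_add,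
    ← mon_add, ← mon_add]
  congr 1
  ext <;> simp [a0, a1, b0, gen]

/-- Laurent polynomials in the fraction field -/
noncomputable def tau : T p →ₐ[ZMod p] KK p :=
  AddMonoidAlgebra.lift (ZMod p) (KK p) M
    { toFun := fun w => XX p w.toAdd
      map_one' := XX_zero p
      map_mul' := fun _ _ => XX_add p _ _ }

lemma tau_single (w : M) (c : ZMod p) : tau p (single w c) = c • XX p w := by
  rw [tau, lift_single]; rfl

lemma tau_single_one (w : M) : tau p (single w 1) = XX p w := by rw [tau_single, one_smul]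

lemma tau_iota (a : R0 p) : tau p (iota p a) = al0 p a := by
  induction a using AddMonoidAlgebra.induction_linear with
  | zero => simp
  | add a b ha hb => simp only [map_add, ha, hb]
  | single w c =>
    rw [iota_single, tau_single, XX_coe, mon, ← mul_one c, ← smul_single', mul_one]
    exact (map_smul (IsScalarTower.toAlgHom (ZMod p) (R0 p) (KK p)) c _).symm

lemma exists_shift (f : T p) : ∃ a : sig, f * single a.1 1 ∈ TA p sig := by
  induction f using AddMonoidAlgebra.induction_linear with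
  | zero => exact ⟨0, by simp⟩
  | add f g hf hg =>
    obtain ⟨a, ha⟩ := hf
    obtain ⟨b, hb⟩ := hg
    refine ⟨a + b, ?_⟩
    have e : (single (a + b).1 1 : T p) = single a.1 1 * single b.1 1 := by
      rw [single_mul_single, one_mul]; rfl
    rw [e, add_mul, ← mul_assoc, mul_comm (single a.1 1), ← mul_assoc]
    exact add_mem (TA_mul ha (single_mem_TA b.2 1) fun _ h1 _ h2 => add_mem h1 h2)
      (TA_mul hb (single_mem_TA a.2 1) fun _ h1 _ h2 => add_mem h1 h2)
  | single w c =>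
    obtain ⟨i, j, n⟩ := w
    refine ⟨⟨(|i|, |j|, 2 * |i| + |j| + |n|), ?_⟩, ?_⟩
    · rw [mem_sig]; simp only
      have := abs_nonneg i; have := abs_nonneg j; have := abs_nonneg n
      omega
    · rw [single_mul_single]
      apply single_mem_TA
      rw [SetLike.mem_coe, mem_sig]
      simp only [Prod.mk_add_mk]
      have := le_abs_self i; have := le_abs_self j; have := le_abs_self n
      have := neg_abs_le i; have := neg_abs_le j; have := neg_abs_le n
      omega

lemma tau_inj : Function.Injective (tau p) := by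
  rw [injective_iff_map_eq_zero]
  intro f hf
  obtain ⟨a, ha⟩ := exists_shift p f
  obtain ⟨b, hb⟩ := exists_iota ha
  have : al0 p b = 0 := by rw [← tau_iota, hb, map_mul, hf, zero_mul]
  rw [map_eq_zero_iff _ (al0_inj p)] at this
  rw [this, map_zero] at hb
  exact (mul_eq_zero.mp hb.symm).resolve_right (by simp)

/-- sets of exponents stable under the semigroup -/
def Up (A : Set M) : Prop := ∀ w ∈ A, ∀ a ∈ sig, w + a ∈ A

lemma Up_sig : Up sig := fun _ h _ h' => add_mem h h'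

variable {p}

lemma sat {A : Set M} (hA : Up A) {s : R0 p} (hs : s ∉ m0 p) {g : T p}
    (h : g * iota p s ∈ TA p A) : g ∈ TA p A := by
  classical
  by_contra hcon
  rw [mem_TA] at hcon
  push Not at hcon
  have hne : (g.coeff.support.filter (· ∉ A)).Nonempty := by
    obtain ⟨w, h1, h2⟩ := hcon
    exact ⟨w, by simp [h1, h2]⟩
  obtain ⟨m, hm, hmin⟩ := Finset.exists_min_image _ (fun w : M => w.2.2) hne
  simp only [Finset.mem_filter, Finsupp.mem_support_iff] at hm hmin
  set c := ev0 p s with hc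
  have hc0 : c ≠ 0 := fun h0 => hs ((mem_m0 p).mpr h0)
  have h1 : s - single 0 c ∈ m0 p := by rw [mem_m0, map_sub, ev0_single]; simp [hc]
  have h2 : g * iota p (s - single 0 c) ∈ TA p {m}ᶜ := by
    refine TA_mul (A := {w | g.coeff w ≠ 0}) (mem_TA.mpr fun w hw => hw) (iota_mem_m0.mp h1) ?_
    rintro a ha b ⟨hb, hb0⟩ rfl
    have h3 : a ∉ A := fun h => hm.2 (hA a h b hb)
    have h4 := hmin a ⟨ha, h3⟩
    have h5 := deg_pos (w := ⟨b, hb⟩) (fun h => hb0 (congrArg Subtype.val h))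
    simp only [Prod.snd_add] at h4 h5
    omega
  have h3 : (g * iota p (s - single 0 c)).coeff m = 0 := by
    by_contra h0
    exact mem_TA.mp h2 m h0 rfl
  have h4 : (g * iota p s).coeff m = 0 := by
    by_contra h0
    exact hm.2 (mem_TA.mp h m h0)
  rw [map_sub, mul_sub, coeff_sub, Finsupp.sub_apply, h4, iota_single] at h3
  change 0 - (g * single 0 c).coeff m = 0 at h3
  rw [coeff_mul_single_zero] at h3
  exact mul_ne_zero hm.1 hc0 (by simpa using h3)

variable (p) in
/-- localized monomial modules -/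
def InK (A : Set M) (h : KK p) : Prop := ∃ s ∉ m0 p, ∃ f ∈ TA p A, h * al0 p s = tau p f

lemma one_notMem_m0 : (1 : R0 p) ∉ m0 p := (Ideal.ne_top_iff_one _).mp (m0_max p).ne_top

lemma mul_notMem_m0 {s t : R0 p} (hs : s ∉ m0 p) (ht : t ∉ m0 p) : s * t ∉ m0 p := fun h =>
  ((m0_max p).isPrime.mem_or_mem h).elim hs ht

lemma ne_zero_of_notMem {s : R0 p} (hs : s ∉ m0 p) : s ≠ 0 := by
  rintro rfl; exact hs (zero_mem _)

lemma InK.tau {A : Set M} {f : T p} (hf : f ∈ TA p A) : InK p A (tau p f) :=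
  ⟨1, one_notMem_m0, f, hf, by simp⟩

lemma InK.X {A : Set M} {w : M} (hw : w ∈ A) : InK p A (XX p w) := by
  rw [← tau_single_one]; exact InK.tau (single_mem_TA hw 1)

lemma InK.zero {A : Set M} : InK p A 0 := ⟨1, one_notMem_m0, 0, zero_mem _, by simp⟩

lemma InK.mono {A B : Set M} (hAB : A ⊆ B) {h : KK p} (hh : InK p A h) : InK p B h := by
  obtain ⟨s, hs, f, hf, e⟩ := hh
  exact ⟨s, hs, f, TA_mono hAB hf, e⟩

lemma InK.mul {A B C : Set M} {h g : KK p} (hh : InK p A h) (hg : InK p B g)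
    (H : ∀ a ∈ A, ∀ b ∈ B, a + b ∈ C) : InK p C (h * g) := by
  obtain ⟨s, hs, f, hf, e⟩ := hh
  obtain ⟨t, ht, f', hf', e'⟩ := hg
  exact ⟨s * t, mul_notMem_m0 hs ht, f * f', TA_mul hf hf' H, by
    rw [map_mul, map_mul, ← e, ← e']; ring⟩

lemma InK.add {A : Set M} (hA : Up A) {h g : KK p} (hh : InK p A h) (hg : InK p A g) :
    InK p A (h + g) := by
  obtain ⟨s, hs, f, hf, e⟩ := hh
  obtain ⟨t, ht, f', hf', e'⟩ := hg
  refine ⟨s * t, mul_notMem_m0 hs ht, f * iota p t + f' * iota p s,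
    add_mem (TA_mul hf (iota_mem t) hA) (TA_mul hf' (iota_mem s) hA), ?_⟩
  rw [map_add, map_mul, map_mul, map_mul, ← e, ← e', tau_iota, tau_iota]; ring

lemma InK.of_tau {A : Set M} (hA : Up A) {g : T p} (h : InK p A (Pool.Agent.MP_ccce09_ag.tau p g)) :
    g ∈ TA p A := by
  obtain ⟨s, hs, f, hf, e⟩ := h
  rw [← tau_iota, ← map_mul] at e
  exact sat hA hs (by rw [tau_inj p e]; exact hf)

lemma InK.of_mul {A : Set M} {h : KK p} {s : R0 p} (hs : s ∉ m0 p) (hh : InK p A (h * al0 p s)) :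
    InK p A h := by
  obtain ⟨t, ht, f, hf, e⟩ := hh
  exact ⟨s * t, mul_notMem_m0 hs ht, f, hf, by rw [map_mul, ← mul_assoc, e]⟩

lemma InK.inter {A B : Set M} (hB : Up B) {h : KK p} (h1 : InK p A h) (h2 : InK p B h) :
    InK p (A ∩ B) h := by
  obtain ⟨s, hs, f, hf, e⟩ := h1
  refine ⟨s, hs, f, mem_TA.mpr fun w hw => ⟨mem_TA.mp hf w hw, mem_TA.mp ?_ w hw⟩, e⟩
  apply InK.of_tau hB
  rw [← e, ← tau_iota]
  exact h2.mul (InK.tau (iota_mem s)) hB

lemma InK.shift {A : Set M} {h : KK p} {w : M} (hh : InK p A (h * XX p w)) :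
    InK p {m | m + w ∈ A} h := by
  have := hh.mul (InK.X (A := {-w}) rfl) (C := {m | m + w ∈ A}) (by
    rintro a ha b rfl; simpa using ha)
  rwa [mul_assoc, ← XX_add, add_neg_cancel, XX_zero, mul_one] at this

lemma exists_frac_R (r : RR p) : ∃ a, ∃ s ∉ m0 p,
    r * algebraMap (R0 p) (RR p) s = algebraMap (R0 p) (RR p) a := by
  obtain ⟨⟨a, s⟩, h⟩ := IsLocalization.surj (m0 p).primeCompl r
  exact ⟨a, s, s.2, h⟩

lemma unit_of_notMem {s : R0 p} (hs : s ∉ m0 p) : IsUnit (algebraMap (R0 p) (RR p) s) :=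
  IsLocalization.map_units _ (⟨s, hs⟩ : (m0 p).primeCompl)

lemma InK.alg (r : RR p) : InK p sig (algebraMap (RR p) (KK p) r) := by
  obtain ⟨a, s, hs, e⟩ := exists_frac_R r
  exact ⟨s, hs, iota p a, iota_mem a, by rw [tau_iota, al0_eq, al0_eq, ← map_mul, e]⟩

lemma InK.exists_alg {h : KK p} (hh : InK p sig h) : ∃ r, algebraMap (RR p) (KK p) r = h := by
  obtain ⟨s, hs, f, hf, e⟩ := hh
  obtain ⟨a, rfl⟩ := exists_iota hf
  obtain ⟨u, hu⟩ := unit_of_notMem hs
  refine ⟨algebraMap _ _ a * ↑u⁻¹, ?_⟩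
  apply mul_right_cancel₀ (al0_ne p (ne_zero_of_notMem hs))
  rw [e, tau_iota, al0_eq, al0_eq, ← map_mul, ← hu]
  simp

lemma InK.mem_max {r : RR p} (h : InK p {w | w ∈ sig ∧ w ≠ 0} (algebraMap (RR p) (KK p) r)) :
    r ∈ IsLocalRing.maximalIdeal (RR p) := by
  obtain ⟨s, hs, f, hf, e⟩ := h
  obtain ⟨a, rfl⟩ := exists_iota (TA_mono (fun _ h => h.1) hf)
  rw [tau_iota, al0_eq, al0_eq, ← map_mul] at e
  have e2 := IsFractionRing.injective _ _ e
  have h1 : algebraMap (R0 p) (RR p) a ∈ IsLocalRing.maximalIdeal (RR p) :=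
    (IsLocalization.AtPrime.to_map_mem_maximal_iff (RR p) (m0 p) a).mpr (iota_mem_m0.mpr hf)
  rw [← e2] at h1
  exact (Ideal.mul_unit_mem_iff_mem _ (unit_of_notMem hs)).mp h1

variable (p) in
/-- residue map to the prime field -/
noncomputable def evR : RR p →+* ZMod p :=
  IsLocalization.lift (M := (m0 p).primeCompl) (g := (ev0 p : R0 p →+* ZMod p)) fun s =>
    Ne.isUnit fun h => s.2 ((mem_m0 p).mpr h)

lemma evR_alg (a : R0 p) : evR p (algebraMap _ _ a) = ev0 p a := IsLocalization.lift_eq _ _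

lemma evR_const (c : ZMod p) : evR p (algebraMap _ _ c) = c := by
  rw [IsScalarTower.algebraMap_apply (ZMod p) (R0 p) (RR p), evR_alg]
  exact (ev0 p).commutes c

lemma evR_eq_zero {r : RR p} : evR p r = 0 ↔ r ∈ IsLocalRing.maximalIdeal (RR p) := by
  have : (RingHom.ker (evR p)).IsMaximal :=
    RingHom.ker_isMaximal_of_surjective _ fun c => ⟨_, evR_const c⟩
  rw [← IsLocalRing.eq_maximalIdeal this, RingHom.mem_ker]

lemma residue_surj :
    Function.Surjective (algebraMap (ZMod p) (IsLocalRing.ResidueField (RR p))) := by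
  intro x
  obtain ⟨r, rfl⟩ := IsLocalRing.residue_surjective x
  refine ⟨evR p r, ?_⟩
  rw [IsScalarTower.algebraMap_apply (ZMod p) (RR p), IsLocalRing.ResidueField.algebraMap_eq,
    ← sub_eq_zero, ← map_sub, IsLocalRing.residue_eq_zero_iff, ← evR_eq_zero, map_sub, evR_const,
    sub_self]

end Pool.Agent.MP_ccce09_ag

end

-- part MP_ccce09_ag.Frob
section

/-! The generating `p^{-e}`-linear map on the fraction field. -/

set_option autoImplicit false
set_option linter.style.haveILetI false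
set_option linter.unusedSectionVars false

open AddMonoidAlgebra

namespace Pool.Agent.MP_ccce09_ag

variable {p : ℕ} [Fact p.Prime] (e : ℕ)

instance : CharP (T p) p := charP_of_injective_algebraMap (algebraMap (ZMod p) _).injective p
instance : CharP (KK p) p := charP_of_injective_algebraMap (algebraMap (ZMod p) _).injective p

lemma q_pos : 0 < p ^ e := pow_pos (Fact.out : p.Prime).pos e

lemma smul_inj : Function.Injective (fun w : M => (p ^ e) • w) :=
  fun _ _ h => nsmul_right_injective (q_pos e).ne' h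

noncomputable def phiT : T p →+ T p :=
  comapDomainAddMonoidHom (fun w : M => (p ^ e) • w) (smul_inj e)

lemma coeff_phiT (f : T p) (w : M) : (phiT e f).coeff w = f.coeff ((p ^ e) • w) := rfl

lemma phiT_mul (g f : T p) : phiT e (g ^ p ^ e * f) = g * phiT e f := by
  induction g using AddMonoidAlgebra.induction_linear with
  | zero => rw [zero_pow (q_pos e).ne']; simp
  | add a b ha hb => rw [add_pow_char_pow, add_mul, map_add, ha, hb, add_mul]
  | single a c =>
    ext1; ext w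
    rw [single_pow, ZMod.pow_card_pow, coeff_phiT, coeff_single_mul_apply, coeff_single_mul_apply,
      coeff_phiT, smul_add, smul_neg]

lemma exists_frac_T (y : KK p) : ∃ a b : T p, b ≠ 0 ∧ y * tau p b = tau p a := by
  obtain ⟨⟨r, r'⟩, h⟩ := IsLocalization.surj (nonZeroDivisors (RR p)) y
  obtain ⟨a, s, hs, e1⟩ := exists_frac_R r
  obtain ⟨b, t, ht, e2⟩ := exists_frac_R r'.1
  have hb : b ≠ 0 := by
    rintro rfl
    rw [map_zero] at e2
    exact mul_ne_zero (nonZeroDivisors.coe_ne_zero r') (unit_of_notMem ht).ne_zero e2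
  refine ⟨iota p (a * t), iota p (b * s), ?_, ?_⟩
  · rw [Ne, map_eq_zero_iff _ (iota_inj p)]
    exact mul_ne_zero hb (ne_zero_of_notMem hs)
  · simp only at h
    rw [tau_iota, tau_iota, al0_eq, al0_eq, map_mul (algebraMap (R0 p) (RR p)),
      map_mul (algebraMap (R0 p) (RR p)), ← e1, ← e2]
    simp only [map_mul]
    rw [← h]; ring

lemma tau_ne {b : T p} (hb : b ≠ 0) : tau p b ≠ 0 := by
  rwa [Ne, map_eq_zero_iff _ (tau_inj p)]

lemma exists_frac_q (y : KK p) : ∃ ab : T p × T p, ab.2 ≠ 0 ∧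
    y * tau p ab.2 ^ p ^ e = tau p ab.1 := by
  obtain ⟨a, b, hb, h⟩ := exists_frac_T y
  refine ⟨(a * b ^ (p ^ e - 1), b), hb, ?_⟩
  simp only [map_mul, map_pow]
  rw [← h, mul_assoc, ← pow_succ', Nat.sub_add_cancel (q_pos e)]

noncomputable def Phi (y : KK p) : KK p :=
  tau p (phiT e (exists_frac_q e y).choose.1) / tau p (exists_frac_q e y).choose.2

lemma Phi_spec {y : KK p} {a b : T p} (_hb : b ≠ 0) (h : y * tau p b ^ p ^ e = tau p a) :
    Phi e y * tau p b = tau p (phiT e a) := by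
  obtain ⟨hb', h'⟩ := (exists_frac_q e y).choose_spec
  unfold Phi
  generalize (exists_frac_q e y).choose = ab at hb' h'
  obtain ⟨a', b'⟩ := ab
  simp only at hb' h' ⊢
  have e1 : b ^ p ^ e * a' = b' ^ p ^ e * a := by
    apply tau_inj p
    rw [map_mul, map_mul, map_pow, map_pow, ← h, ← h']; ring
  have e2 := congrArg (phiT e) e1
  rw [phiT_mul, phiT_mul] at e2
  rw [div_mul_eq_mul_div, div_eq_iff (tau_ne hb'), ← map_mul, ← map_mul, mul_comm, e2, mul_comm]

lemma Phi_tau (a : T p) : Phi e (tau p a) = tau p (phiT e a) := by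
  have := Phi_spec e (y := tau p a) (a := a) (b := 1) one_ne_zero (by simp)
  simpa using this

lemma Phi_zero : Phi e (0 : KK p) = 0 := by simpa using Phi_tau e (0 : T p)

lemma Phi_add (y z : KK p) : Phi e (y + z) = Phi e y + Phi e z := by
  obtain ⟨⟨a, b⟩, hb, h⟩ := exists_frac_q e y
  obtain ⟨⟨a', b'⟩, hb', h'⟩ := exists_frac_q e z
  simp only at hb hb' h h'
  have h1 := Phi_spec e hb h
  have h2 := Phi_spec e hb' h'
  have h3 := Phi_spec e (y := y + z) (a := b' ^ p ^ e * a + b ^ p ^ e * a') (mul_ne_zero hb hb')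
    (by simp only [map_add, map_mul, map_pow, mul_pow, ← h, ← h']; ring)
  rw [map_add, phiT_mul, phiT_mul, map_add, map_mul, map_mul, map_mul, ← h1, ← h2] at h3
  apply mul_right_cancel₀ (mul_ne_zero (tau_ne hb) (tau_ne hb'))
  rw [h3]; ring

lemma Phi_mul (g y : KK p) : Phi e (g ^ p ^ e * y) = g * Phi e y := by
  obtain ⟨⟨a, b⟩, hb, h⟩ := exists_frac_q e y
  obtain ⟨a', b', hb', h'⟩ := exists_frac_T g
  simp only at hb h
  have h1 := Phi_spec e hb h
  have h3 := Phi_spec e (y := g ^ p ^ e * y) (a := a' ^ p ^ e * a) (mul_ne_zero hb hb')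
    (by simp only [map_mul, map_pow, mul_pow, ← h, ← h']; ring)
  rw [phiT_mul, map_mul, map_mul, ← h1, ← h'] at h3
  apply mul_right_cancel₀ (mul_ne_zero (tau_ne hb) (tau_ne hb'))
  rw [h3]; ring

lemma Phi_sum {ι : Type} (s : Finset ι) (f : ι → KK p) :
    Phi e (∑ i ∈ s, f i) = ∑ i ∈ s, Phi e (f i) :=
  map_sum (AddMonoidHom.mk' (Phi e) (Phi_add e)) f s

lemma Phi_X (v : M) : Phi e (XX p ((p ^ e) • v)) = XX p v := by
  rw [← tau_single_one, Phi_tau, ← tau_single_one]
  congr 1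
  exact comapDomain_single_map _ (smul_inj e) _ _

lemma Phi_X_not {v : M} (h : ∀ v', v ≠ (p ^ e) • v') : Phi e (XX p v) = 0 := by
  rw [← tau_single_one, Phi_tau, ← map_zero (tau p)]
  congr 1
  exact comap_single_not (by rintro ⟨v', hv⟩; exact h v' hv.symm) (smul_inj e)

lemma const_pow (c : ZMod p) :
    algebraMap (ZMod p) (KK p) c ^ p ^ e = algebraMap (ZMod p) (KK p) c := by
  rw [← map_pow, ZMod.pow_card_pow]

lemma Phi_smul (c : ZMod p) (y : KK p) : Phi e (c • y) = c • Phi e y := by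
  rw [Algebra.smul_def, Algebra.smul_def, ← Phi_mul, const_pow]

variable (p) in
/-- representatives of exponents modulo `q` inside the semigroup -/
noncomputable def WW : Finset M :=
  Finset.Ico (0 : ℤ) (p ^ e) ×ˢ Finset.Ico (0 : ℤ) (p ^ e) ×ˢ Finset.Ico (p ^ e : ℤ) (2 * p ^ e)

lemma mem_WW {w : M} : w ∈ WW p e ↔ (0 ≤ w.1 ∧ w.1 < p ^ e) ∧ (0 ≤ w.2.1 ∧ w.2.1 < p ^ e) ∧
    (p ^ e ≤ w.2.2 ∧ w.2.2 < 2 * p ^ e) := by
  simp [WW, Finset.mem_product]

lemma WW_sig {w : M} (h : w ∈ WW p e) : w ∈ sig := by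
  rw [mem_WW] at h; rw [mem_sig]; omega

lemma q_smul (v : M) : (p ^ e) • v = ((p : ℤ) ^ e * v.1, (p : ℤ) ^ e * v.2.1,
    (p : ℤ) ^ e * v.2.2) := by
  ext <;> simp

lemma qz_pos : (0 : ℤ) < (p : ℤ) ^ e := by exact_mod_cast q_pos (p := p) e

lemma res_add (x : ℤ) : ∃ a y : ℤ, 0 ≤ a ∧ a < (p : ℤ) ^ e ∧ x + a = (p : ℤ) ^ e * y := by
  have hq := qz_pos (p := p) e
  refine ⟨(-x) % p ^ e, -((-x) / p ^ e), Int.emod_nonneg _ hq.ne', Int.emod_lt_of_pos _ hq, ?_⟩
  have := Int.emod_add_mul_ediv (-x) (p ^ e)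
  linarith

lemma exists_WW (v : M) : ∃ w ∈ WW p e, ∃ v', v + w = (p ^ e) • v' := by
  obtain ⟨a, x, h1, h2, h3⟩ := res_add (p := p) e v.1
  obtain ⟨b, y, h4, h5, h6⟩ := res_add (p := p) e v.2.1
  obtain ⟨c, z, h7, h8, h9⟩ := res_add (p := p) e v.2.2
  refine ⟨(a, b, c + p ^ e), (mem_WW e).mpr (by simp only; omega), (x, y, z + 1), ?_⟩
  rw [q_smul]
  ext <;> simp <;> linarith

lemma small_mul {q x : ℤ} (hq : 0 < q) (h1 : -q < q * x) (h2 : q * x < q) : x = 0 := by
  have : -1 < x := by by_contra h; nlinarith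
  have : x < 1 := by by_contra h; nlinarith
  omega

lemma nonneg_of_mul {q x : ℤ} (hq : 0 < q) (h1 : -q < q * x) : 0 ≤ x := by
  by_contra h; nlinarith

lemma WW_unique {w w' v : M} (h : w ∈ WW p e) (h' : w' ∈ WW p e) (hv : w - w' = (p ^ e) • v) :
    w = w' := by
  rw [mem_WW] at h h'
  rw [q_smul] at hv
  have hq := qz_pos (p := p) e
  have e1 := congrArg (fun x : M => x.1) hv
  have e2 := congrArg (fun x : M => x.2.1) hv
  have e3 := congrArg (fun x : M => x.2.2) hv
  simp only [Prod.fst_sub, Prod.snd_sub] at e1 e2 e3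
  have a1 := small_mul (x := v.1) hq (by omega) (by omega)
  have a2 := small_mul (x := v.2.1) hq (by omega) (by omega)
  have a3 := small_mul (x := v.2.2) hq (by omega) (by omega)
  rw [a1] at e1; rw [a2] at e2; rw [a3] at e3
  ext <;> omega

lemma expansion (h : KK p) :
    h = ∑ w ∈ WW p e, Phi e (h * XX p w) ^ p ^ e * XX p (-w) := by
  have key : ∀ a : T p,
      tau p a = ∑ w ∈ WW p e, Phi e (tau p a * XX p w) ^ p ^ e * XX p (-w) := by
    intro a
    induction a using AddMonoidAlgebra.induction_linear with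
    | zero => simp only [map_zero, zero_mul, Phi_zero, zero_pow (q_pos (p := p) e).ne',
        Finset.sum_const_zero]
    | add a b ha hb =>
      simp only [map_add, add_mul, Phi_add, add_pow_char_pow, Finset.sum_add_distrib]
      rw [← ha, ← hb]
    | single v c =>
      obtain ⟨w0, hw0, v', hv'⟩ := exists_WW (p := p) e v
      rw [Finset.sum_eq_single_of_mem w0 hw0]
      · rw [tau_single, smul_mul_assoc, ← XX_add, hv', Phi_smul, Phi_X, Algebra.smul_def,
          Algebra.smul_def, mul_pow, const_pow, ← XX_nsmul, ← hv', mul_assoc, ← XX_add]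
        simp
      · intro w hw hne
        rw [tau_single, smul_mul_assoc, ← XX_add, Phi_smul, Phi_X_not, smul_zero,
          zero_pow (q_pos e).ne', zero_mul]
        intro v'' h2
        apply hne
        refine WW_unique e hw hw0 (v := v'' - v') ?_
        rw [smul_sub, ← h2, ← hv']; abel
  obtain ⟨⟨a, b⟩, hb, hab⟩ := exists_frac_q e h
  simp only at hb hab
  apply mul_right_cancel₀ (pow_ne_zero (p ^ e) (tau_ne hb))
  rw [hab, key a, Finset.sum_mul]
  refine Finset.sum_congr rfl fun w _ => ?_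
  rw [← hab, show h * tau p b ^ p ^ e * XX p w = tau p b ^ p ^ e * (h * XX p w) by ring, Phi_mul]
  ring

lemma Phi_dual (c : M → KK p) {w' : M} (hw' : w' ∈ WW p e) :
    Phi e ((∑ w ∈ WW p e, c w ^ p ^ e * XX p (-w)) * XX p w') = c w' := by
  rw [Finset.sum_mul, Phi_sum, Finset.sum_eq_single_of_mem w' hw']
  · rw [mul_assoc, ← XX_add, Phi_mul, neg_add_cancel, ← smul_zero (p ^ e), Phi_X, XX_zero, mul_one]
  · intro w hw hne
    rw [mul_assoc, ← XX_add, Phi_mul, Phi_X_not, mul_zero]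
    intro v h
    exact hne (WW_unique e hw' hw (v := v) (by rw [← h]; abel)).symm

/-- every `p^{-e}`-linear map is a premultiple of `Phi` -/
lemma exists_rep (ψ : RR p → RR p) (hadd : ∀ x y, ψ (x + y) = ψ x + ψ y)
    (hsm : ∀ r x, ψ (r ^ p ^ e * x) = r * ψ x) :
    ∃ h : KK p, ∀ r, algebraMap _ (KK p) (ψ r) = Phi e (h * algebraMap _ (KK p) r) := by
  classical
  let x : sig → RR p := fun w => algebraMap (R0 p) (RR p) (single w 1)
  have hx : ∀ w, algebraMap _ (KK p) (x w) = XX p w.1 := fun w => by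
    rw [XX_coe, mon, al0_eq]
  let c : M → KK p := fun w => if hw : w ∈ sig then algebraMap _ (KK p) (ψ (x ⟨w, hw⟩)) else 0
  refine ⟨∑ w ∈ WW p e, c w ^ p ^ e * XX p (-w), ?_⟩
  set h := ∑ w ∈ WW p e, c w ^ p ^ e * XX p (-w) with hh
  have cancel : ∀ b r : RR p, b ≠ 0 → algebraMap _ (KK p) (ψ (b ^ p ^ e * r)) =
      Phi e (h * algebraMap _ (KK p) (b ^ p ^ e * r)) →
      algebraMap _ (KK p) (ψ r) = Phi e (h * algebraMap _ (KK p) r) := by
    intro b r hb h1
    rw [hsm, map_mul, map_mul, map_pow, mul_left_comm, Phi_mul] at h1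
    exact mul_left_cancel₀ (algK_ne hb) h1
  have scale : ∀ b r : RR p, algebraMap _ (KK p) (ψ r) = Phi e (h * algebraMap _ (KK p) r) →
      algebraMap _ (KK p) (ψ (b ^ p ^ e * r)) =
      Phi e (h * algebraMap _ (KK p) (b ^ p ^ e * r)) := by
    intro b r h1
    rw [hsm, map_mul, map_mul, map_pow, mul_left_comm, Phi_mul, h1]
  have hmon : ∀ v : sig,
      algebraMap _ (KK p) (ψ (x v)) = Phi e (h * algebraMap _ (KK p) (x v)) := by
    intro v
    obtain ⟨w, hw, v', hv'⟩ := exists_WW (p := p) e (-v.1)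
    obtain ⟨a, ha⟩ := exists_shift p (single (-v') 1)
    rw [single_mul_single] at ha
    have ha2 : -v' + a.1 ∈ sig := mem_TA.mp ha _ (by simp)
    have base : algebraMap _ (KK p) (ψ (x ⟨w, WW_sig e hw⟩)) =
        Phi e (h * algebraMap _ (KK p) (x ⟨w, WW_sig e hw⟩)) := by
      rw [hx, hh, Phi_dual e c hw]
      simp only [c, WW_sig e hw, dif_pos]
    have hxa : x a ≠ 0 := fun h0 => XX_ne p a.1 (by rw [← hx, h0, map_zero])
    apply cancel (x a) _ hxa
    have e1 : x a ^ p ^ e * x v = x ⟨_, ha2⟩ ^ p ^ e * x ⟨w, WW_sig e hw⟩ := by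
      simp only [x, ← map_pow, ← map_mul, single_pow, single_mul_single]
      congr 2
      apply Subtype.ext
      change (p ^ e) • a.1 + v.1 = (p ^ e) • (-v' + a.1) + w
      rw [smul_add, smul_neg, ← hv']; abel
    rw [e1]
    exact scale _ _ base
  have h0 : ψ 0 = 0 := by
    have := hsm 0 0
    rwa [mul_zero, zero_mul] at this
  have hR0 : ∀ a : R0 p, algebraMap _ (KK p) (ψ (algebraMap _ _ a)) =
      Phi e (h * algebraMap (RR p) (KK p) (algebraMap _ _ a)) := by
    intro a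
    induction a using AddMonoidAlgebra.induction_linear with
    | zero => simp [h0, Phi_zero]
    | add a b ha hb => rw [map_add, hadd, map_add, map_add, mul_add, Phi_add, ha, hb]
    | single v c =>
      have : algebraMap (R0 p) (RR p) (single v c) =
          (algebraMap (R0 p) (RR p) (single 0 c)) ^ p ^ e * x v := by
        simp only [x, ← map_pow, ← map_mul, single_pow, single_mul_single, ZMod.pow_card_pow]
        simp
      rw [this]
      exact scale _ _ (hmon v)
  intro r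
  obtain ⟨a, s, hs, e1⟩ := exists_frac_R r
  apply cancel (algebraMap _ _ s) r (unit_of_notMem hs).ne_zero
  have : (algebraMap (R0 p) (RR p) s) ^ p ^ e * r = algebraMap _ _ (a * s ^ (p ^ e - 1)) := by
    rw [map_mul, ← e1, map_pow, mul_assoc, ← pow_succ', Nat.sub_add_cancel (q_pos e), mul_comm]
  rw [this]
  exact hR0 _

lemma Phi_InK {A B : Set M} (hA : Up A) (hAB : ∀ w, (p ^ e) • w ∈ A → w ∈ B) {h : KK p}
    (hh : InK p A h) : InK p B (Phi e h) := by
  obtain ⟨s, hs, f, hf, e1⟩ := hh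
  have hs0 : iota p s ≠ 0 := by
    rw [Ne, map_eq_zero_iff _ (iota_inj p)]; exact ne_zero_of_notMem hs
  have := Phi_spec e (y := h) (a := f * iota p (s ^ (p ^ e - 1))) hs0 (by
    rw [map_mul, ← e1, tau_iota, tau_iota, map_pow, mul_assoc, ← pow_succ',
      Nat.sub_add_cancel (q_pos e)])
  rw [tau_iota] at this
  refine ⟨s, hs, _, mem_TA.mpr fun w hw => hAB w ?_, this⟩
  exact mem_TA.mp (TA_mul hf (iota_mem _) hA) _ hw

/-- exponents with all four facet values at least `-N` -/
def AA (N : ℤ) : Set M :=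
  {w | -N ≤ w.1 ∧ -N ≤ w.2.1 ∧ -N ≤ w.2.2 - w.1 ∧ -N ≤ 2 * w.2.2 - w.2.1}

lemma Up_AA (N : ℤ) : Up (AA N) := by
  rintro ⟨a, b, c⟩ h ⟨d, e, f⟩ h'
  simp only [AA, mem_sig, Set.mem_ofPred_eq, Prod.mk_add_mk] at *
  omega

lemma sig_of_smul {w : M} (h : (p ^ e) • w ∈ AA ((p : ℤ) ^ e - 1)) : w ∈ sig := by
  have hq := qz_pos (p := p) e
  rw [q_smul] at h
  simp only [AA, Set.mem_ofPred_eq] at h
  have a1 := nonneg_of_mul (x := w.1) hq (by linarith [h.1])
  have a2 := nonneg_of_mul (x := w.2.1) hq (by linarith [h.2.1])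
  have a3 := nonneg_of_mul (x := w.2.2 - w.1) hq (by linarith [h.2.2.1])
  have a4 := nonneg_of_mul (x := 2 * w.2.2 - w.2.1) hq (by linarith [h.2.2.2])
  rw [mem_sig]; omega

lemma Phi_mem_of_AA {h : KK p} (hh : InK p (AA ((p : ℤ) ^ e - 1)) h) (r : RR p) :
    InK p sig (Phi e (h * algebraMap _ _ r)) :=
  Phi_InK e (Up_AA _) (fun _ hw => sig_of_smul e hw) (hh.mul (InK.alg r) (Up_AA _))

/-- exponents outside the box -/
def Out (q : ℤ) (w : M) : Prop := q ≤ w.1 ∨ q ≤ w.2.1 ∨ q ≤ w.2.2 - w.1 ∨ q ≤ 2 * w.2.2 - w.2.1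

lemma Phi_mem_max {h y : KK p} (hh : InK p (AA ((p : ℤ) ^ e - 1)) h)
    (hy : InK p {w | w ∈ sig ∧ Out (p ^ e) w} y) :
    InK p {w | w ∈ sig ∧ w ≠ 0} (Phi e (h * y)) := by
  refine Phi_InK e (A := {w | w ∈ AA ((p : ℤ) ^ e - 1) ∧ Out 1 w}) ?_ ?_ (hh.mul hy ?_)
  · rintro ⟨a, b, c⟩ h ⟨d, e, f⟩ h'
    simp only [AA, Out, mem_sig, Set.mem_ofPred_eq, Prod.mk_add_mk] at *
    omega
  · rintro w ⟨h1, h2⟩
    refine ⟨sig_of_smul e h1, ?_⟩
    rintro rfl
    simp [Out] at h2
  · rintro ⟨a, b, c⟩ h ⟨d, e, f⟩ h'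
    simp only [AA, Out, mem_sig, Set.mem_ofPred_eq, Prod.mk_add_mk] at *
    omega

lemma InK_pow {h : KK p} (hh : InK p Set.univ h) (n : ℕ) : InK p Set.univ (h ^ n) := by
  induction n with
  | zero => rw [pow_zero, ← XX_zero]; exact InK.X trivial
  | succ n ih => rw [pow_succ]; exact ih.mul hh fun _ _ _ _ => trivial

lemma AA_of_Phi_mem {h : KK p} (hh : ∀ r : RR p, InK p sig (Phi e (h * algebraMap _ _ r))) :
    InK p (AA ((p : ℤ) ^ e - 1)) h := by
  have hX : ∀ (a : R0 p), InK p sig (Phi e (h * al0 p a)) := fun a => by rw [al0_eq]; exact hh _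
  have h1 : InK p Set.univ h := by
    rw [expansion e h]
    refine Finset.sum_induction _ (InK p Set.univ)
      (fun _ _ => InK.add fun _ _ _ _ => Set.mem_univ _) InK.zero fun w hw => ?_
    have := hX (single ⟨w, WW_sig e hw⟩ 1)
    rw [← mon, ← XX_coe] at this
    exact (InK_pow (this.mono (Set.subset_univ _)) _).mul (InK.X (A := Set.univ) trivial)
      fun _ _ _ _ => trivial
  obtain ⟨s, hs, f, -, e1⟩ := h1
  refine ⟨s, hs, f, mem_TA.mpr fun m hm => ?_, e1⟩
  have key : ∀ w ∈ sig, ∀ v', m + w = (p ^ e) • v' → m + w ∈ sig := by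
    intro w hw v' hv
    have a1 := hX (s * single ⟨w, hw⟩ 1)
    rw [map_mul, ← mul_assoc, e1, ← tau_iota, ← map_mul, Phi_tau, iota_single] at a1
    have a2 := mem_TA.mp (InK.of_tau Up_sig a1) v' (by
      rw [coeff_phiT, ← hv, coeff_mul_single_add, mul_one]; exact hm)
    rw [hv]
    exact nsmul_mem a2 _
  obtain ⟨w, hw, v', hv'⟩ := exists_WW (p := p) e m
  have k1 := mem_sig.mp (key w (WW_sig e hw) v' hv')
  rw [mem_WW] at hw
  obtain ⟨c, z, h7, h8, h9⟩ := res_add (p := p) e m.2.2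
  obtain ⟨a, x, h1, h2, h3⟩ := res_add (p := p) e (-(m.1 + c))
  obtain ⟨b, y, h4, h5, h6⟩ := res_add (p := p) e (-(m.2.1 + 2 * c))
  have k2 := mem_sig.mp (key (c + p ^ e - a, 2 * (c + p ^ e) - b, c + p ^ e)
    (by rw [mem_sig]; simp only; omega) (1 - x, 2 - y, z + 1) (by
      rw [q_smul]; ext <;> simp <;> linarith))
  simp only [AA, Set.mem_ofPred_eq, Prod.fst_add, Prod.snd_add] at k1 k2 ⊢
  omega

end Pool.Agent.MP_ccce09_ag

end

-- part MP_ccce09_ag.Count
section

/-! Counting monomials, approximation by polynomials, and the duality bound. -/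

set_option autoImplicit false
set_option linter.style.haveILetI false
set_option linter.unusedSectionVars false

open AddMonoidAlgebra Finset

namespace Pool.Agent.MP_ccce09_ag

noncomputable def slab (n : ℕ) (lo hi : ℤ) : Finset M := Icc (0 : ℤ) n ×ˢ Icc lo hi ×ˢ {(n : ℤ)}

lemma mem_slab {n : ℕ} {lo hi : ℤ} {w : M} : w ∈ slab n lo hi ↔
    (0 ≤ w.1 ∧ w.1 ≤ n) ∧ (lo ≤ w.2.1 ∧ w.2.1 ≤ hi) ∧ w.2.2 = n := by
  simp only [slab, Finset.mem_product, mem_Icc, mem_singleton]

lemma card_slabs (a : ℕ) (lo hi : ℕ → ℤ) :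
    ((range a).biUnion fun n => slab n (lo n) (hi n)).card =
      ∑ n ∈ range a, (n + 1) * (hi n + 1 - lo n).toNat := by
  rw [card_biUnion]
  · refine sum_congr rfl fun n _ => ?_
    simp [slab]
  · intro n _ m _ h
    refine disjoint_left.mpr fun w h1 h2 => h ?_
    rw [mem_slab] at h1 h2
    omega

/-- monomials of degree less than `a` -/
noncomputable def Low (a : ℕ) : Finset M := (range a).biUnion fun n => slab n 0 (2 * n)

lemma mem_Low {a : ℕ} {w : M} : w ∈ Low a ↔ w ∈ sig ∧ w.2.2 < a := by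
  simp only [Low, mem_biUnion, mem_range, mem_slab, mem_sig]
  constructor
  · rintro ⟨n, h⟩; omega
  · intro h; exact ⟨w.2.2.toNat, by omega⟩

lemma card_Low (a : ℕ) : 6 * (Low a).card + a = 4 * a ^ 3 + 3 * a ^ 2 := by
  rw [Low, card_slabs]
  induction a with
  | zero => simp
  | succ n ih =>
    have : (2 * (n : ℤ) + 1 - 0).toNat = 2 * n + 1 := by omega
    rw [sum_range_succ, this]
    nlinarith

/-- monomials inside the box -/
noncomputable def Box (q : ℕ) : Finset M :=
  (range q).biUnion fun n => slab n (max 0 (2 * n + 1 - q)) (min (2 * n) (q - 1))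

lemma mem_Box {q : ℕ} {w : M} : w ∈ Box q ↔ w ∈ sig ∧ ¬ Out q w := by
  simp only [Box, mem_biUnion, mem_range, mem_slab, mem_sig, Out]
  constructor
  · rintro ⟨n, h⟩; omega
  · intro h; exact ⟨w.2.2.toNat, by omega⟩

lemma sum_odd (m : ℕ) : ∑ n ∈ range m, (2 * n + 1) = m ^ 2 := by
  induction m with
  | zero => simp
  | succ n ih => rw [sum_range_succ, ih]; ring

lemma card_Box (q : ℕ) : q ^ 3 ≤ 4 * (Box q).card ∧ 4 * (Box q).card ≤ (q + 1) * (q ^ 2 + 1) := by
  set f : ℕ → ℕ := fun n => min (2 * n + 1) (2 * (q - 1 - n) + 1) with hf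
  have h1 : (Box q).card = ∑ n ∈ range q, (n + 1) * f n := by
    rw [Box, card_slabs]
    refine sum_congr rfl fun n hn => ?_
    rw [mem_range] at hn
    simp only [hf]
    congr 1
    omega
  have h2 : (Box q).card = ∑ n ∈ range q, (q - n) * f n := by
    rw [h1, ← sum_range_reflect]
    refine sum_congr rfl fun n hn => ?_
    rw [mem_range] at hn
    simp only [hf]
    congr 1 <;> omega
  have h3 : 2 * (Box q).card = (q + 1) * ∑ n ∈ range q, f n := by
    rw [two_mul, mul_sum]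
    nth_rewrite 1 [h1]
    rw [h2, ← sum_add_distrib]
    refine sum_congr rfl fun n hn => ?_
    rw [mem_range] at hn
    rw [← add_mul]
    congr 1
    omega
  obtain ⟨m, r, hr, hq⟩ : ∃ m r, r ≤ 1 ∧ q = m + (m + r) := ⟨q / 2, q % 2, by omega, by omega⟩
  have h4 : ∑ n ∈ range q, f n = m ^ 2 + (m + r) ^ 2 := by
    conv_lhs => rw [hq]
    rw [sum_range_add, ← sum_odd m, ← sum_odd (m + r), ← sum_range_reflect _ (m + r)]
    congr 1
    · refine sum_congr rfl fun n hn => ?_
      rw [mem_range] at hn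
      simp only [hf]; omega
    · refine sum_congr rfl fun n hn => ?_
      rw [mem_range] at hn
      simp only [hf]; omega
  rw [h4] at h3
  rw [show 4 * (Box q).card = 2 * (2 * (Box q).card) by ring, h3, hq]
  interval_cases r
  · constructor <;> nlinarith [Nat.zero_le (m ^ 2), Nat.zero_le m]
  · constructor <;> nlinarith [Nat.zero_le (m ^ 2), Nat.zero_le m]

lemma gor_bound {k R V : Type} [Field k] [CommRing R] [Algebra k R] [AddCommGroup V] [Module k V]
    [FiniteDimensional k V] (lam : R →ₗ[k] k) (J A : Ideal R)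
    (hJ : ∀ x, x ∈ J ↔ ∀ r, lam (x * r) = 0) (hA : ∀ a ∈ A, ∀ b ∈ A, lam (a * b) = 0)
    (f : V →ₗ[k] R) (hf : ∀ r, ∃ v, r - f v ∈ A) :
    Module.length R (R ⧸ J) ≤ (2 * Module.finrank k V : ℕ) := by
  let π : R →ₗ[k] R ⧸ J := (Ideal.Quotient.mkₐ k J).toLinearMap
  let A' : Submodule k (R ⧸ J) := (A.restrictScalars k).map π
  let Θ0 : R →ₗ[k] Module.Dual k V :=
    LinearMap.mk₂ k (fun r v => lam (r * f v)) (by simp [add_mul]) (by simp) (by simp [mul_add])
      (by simp)
  let Θ : (R ⧸ J) →ₗ[k] Module.Dual k V :=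
    ((J.restrictScalars k).liftQ Θ0 fun x hx => LinearMap.ext fun v => (hJ x).mp hx _) ∘ₗ
      (Submodule.Quotient.restrictScalarsEquiv k J).symm.toLinearMap
  have hΘ : ∀ r v, Θ (π r) v = lam (r * f v) := fun r v => rfl
  have hinj : Function.Injective (Θ ∘ₗ A'.subtype) := by
    rw [injective_iff_map_eq_zero]
    rintro ⟨_, a, ha, rfl⟩ h
    refine Subtype.ext (Ideal.Quotient.eq_zero_iff_mem.mpr ((hJ a).mpr fun r => ?_))
    obtain ⟨v, hv⟩ := hf r
    have h1 : lam (a * f v) = 0 := by rw [← hΘ]; exact LinearMap.congr_fun h v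
    have h2 := hA a ha _ hv
    rwa [mul_sub, map_sub, h1, sub_zero] at h2
  have hsurj : Function.Surjective (LinearMap.coprod (π ∘ₗ f) A'.subtype) := by
    intro x
    obtain ⟨r, rfl⟩ := Ideal.Quotient.mk_surjective x
    obtain ⟨v, hv⟩ := hf r
    refine ⟨(v, ⟨π (r - f v), _, hv, rfl⟩), ?_⟩
    change π (f v) + π (r - f v) = π r
    rw [← map_add, add_sub_cancel]
  have e1 : Module.length R (R ⧸ J) ≤ Module.length k (R ⧸ J) := by
    have := Submodule.length_le_length_restrictScalars k (⊤ : Submodule R (R ⧸ J))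
    rwa [Module.length_top, Submodule.restrictScalars_top, Module.length_top] at this
  calc _ ≤ _ := e1
    _ ≤ Module.length k (V × A') := Module.length_le_of_surjective _ hsurj
    _ = Module.length k V + Module.length k A' := Module.length_prod _ _ _
    _ ≤ Module.length k V + Module.length k (Module.Dual k V) := by
      gcongr; exact Module.length_le_of_injective _ hinj
    _ = _ := by
      rw [Module.length_eq_finrank, Module.length_eq_finrank, Subspace.dual_finrank_eq, two_mul]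
      simp

variable {p : ℕ} [Fact p.Prime]

lemma approx_deg (a : ℕ) (r : RR p) : ∃ t : R0 p,
    InK p {w | w ∈ sig ∧ (a : ℤ) ≤ w.2.2} (algebraMap _ (KK p) r - al0 p t) := by
  induction a with
  | zero =>
    refine ⟨0, ?_⟩
    rw [map_zero, sub_zero]
    exact (InK.alg r).mono fun w hw => And.intro hw (deg_nonneg ⟨w, hw⟩)
  | succ a ih =>
    obtain ⟨t, ht⟩ := ih
    obtain ⟨s, hs, f, hf, e⟩ := id ht
    obtain ⟨b, rfl⟩ := exists_iota (TA_mono (fun _ h => h.1) hf)
    set c := ev0 p s with hc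
    have hc0 : c ≠ 0 := fun h0 => hs ((mem_m0 p).mpr h0)
    have h1 : 1 - s * single 0 c⁻¹ ∈ m0 p := by
      rw [mem_m0, map_sub, map_mul, ev0_single, map_one, ← hc]; simp [hc0]
    refine ⟨t + b * single 0 c⁻¹, ?_⟩
    have e2 : algebraMap _ (KK p) r - al0 p (t + b * single 0 c⁻¹) =
        (algebraMap _ (KK p) r - al0 p t) * tau p (iota p (1 - s * single 0 c⁻¹)) := by
      rw [tau_iota] at e ⊢
      rw [map_add, map_mul, map_sub, map_mul, map_one, ← e]; ring
    rw [e2]
    refine ht.mul (InK.tau (iota_mem_m0.mp h1)) ?_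
    rintro x ⟨hx, hx2⟩ y ⟨hy, hy2⟩
    have := deg_pos (w := ⟨y, hy⟩) (fun h => hy2 (congrArg Subtype.val h))
    refine ⟨add_mem hx hy, ?_⟩
    simp only [Prod.snd_add] at *
    push_cast
    omega

variable (p) in
/-- monomials, extended by zero -/
noncomputable def xM (w : M) : RR p := by
  classical exact if h : w ∈ sig then algebraMap (R0 p) (RR p) (single ⟨w, h⟩ 1) else 0

lemma xM_alg {w : M} (h : w ∈ sig) : algebraMap _ (KK p) (xM p w) = XX p w := by
  rw [xM, dif_pos h, ← al0_eq, ← mon, ← XX_coe]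

variable (p) in
noncomputable def comb (S : Finset M) : (S → ZMod p) →ₗ[ZMod p] RR p :=
  Fintype.linearCombination (ZMod p) fun w => xM p w.1

lemma approx {A : Set M} (hA : Up A) (a : ℕ) (ha : ∀ w ∈ sig, (a : ℤ) ≤ w.2.2 → w ∈ A)
    (S : Finset M) (hS : ∀ w ∈ sig, w ∉ A → w ∈ S) (r : RR p) :
    ∃ v, InK p A (algebraMap _ (KK p) (r - comb p S v)) := by
  classical
  have key : ∀ t : R0 p, ∃ v, InK p A (al0 p t - algebraMap _ (KK p) (comb p S v)) := by
    intro t
    induction t using AddMonoidAlgebra.induction_linear with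
    | zero => exact ⟨0, by simpa using InK.zero⟩
    | add a b h1 h2 =>
      obtain ⟨v, hv⟩ := h1
      obtain ⟨v', hv'⟩ := h2
      refine ⟨v + v', ?_⟩
      have := InK.add hA hv hv'
      rw [map_add, map_add, map_add]
      rwa [sub_add_sub_comm] at this
    | single w c =>
      by_cases hw : w.1 ∈ A
      · refine ⟨0, ?_⟩
        rw [map_zero, map_zero, sub_zero, ← tau_iota, iota_single]
        exact InK.tau (single_mem_TA hw c)
      · refine ⟨Pi.single ⟨w.1, hS _ w.2 hw⟩ c, ?_⟩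
        rw [comb, Fintype.linearCombination_apply_single, ← tau_iota, iota_single, tau_single,
          Algebra.smul_def c (xM p _), map_mul, xM_alg w.2, ← IsScalarTower.algebraMap_apply,
          Algebra.smul_def, sub_self]
        exact InK.zero
  obtain ⟨t, ht⟩ := approx_deg a r
  obtain ⟨v, hv⟩ := key t
  refine ⟨v, ?_⟩
  have := InK.add hA (ht.mono fun w hw => ha w hw.1 hw.2) hv
  rwa [sub_add_sub_cancel, ← map_sub] at this

end Pool.Agent.MP_ccce09_ag

end
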