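import Pool.Agent.MP_ccce09_ag.Mg.Sig
import Pool.Agent.MP_ccce09_ag.H83.Defs

attribute [-instance] SubfieldClass.toSubringClass AddSubgroupClass.toAddCommGroup
  IsAffineAddMonoid.toIsCancelAdd Nontrivial.to_nonempty NonUnitalNonAssocRing.toAddCommGroup
  AddSubgroupClass.toAddGroup RingConeClass.toSubsemiringClass
  NonUnitalSemiring.toNonUnitalNonAssocSemiring SubringClass.toSubsemiringClass
  AddMonoidAlgebra.distribMulAction NonUnitalAlgHomClass.toNonUnitalRingHomClass SubringClass.toRing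
  instCharZeroOfIsSemireal AddTorsor.nonempty NonUnitalSubsemiringClass.toNonUnitalNonAssocSemiring
  SemilinearMapClass.distribMulActionSemiHomClass SetLike.GradeZero.instRing
  SetLike.GradeZero.instCommRing NonUnitalNonAssocCommSemiring.toNonUnitalNonAssocSemiring
  littleWedderburn SetLike.GradeZero.instSemiring SubringClass.toCommRing
  NormMulClass.toNoZeroDivisors SetLike.GradeZero.instCommSemiring RKHS.instFunLike
  Action.FintypeCat.instMulActionObjFiniteOf NeZero.charZero_one MonTypeEquivalenceMon.monMonoid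
  Fintype.decidableForallFintype NonUnitalRing.toNonUnitalNonAssocRing
  GradedMonoid.GradeZero.mulAction AddSubmonoidWithOneClass.toAddMonoidWithOne
  instNontrivialOfCharZero AddCommGroupWithOne.toAddGroupWithOne SemilinearMapClass.toAddHomClass
  IdemSemiring.toSemiring SubsemiringClass.toCommSemiring SubfieldClass.toField
  BialgHomClass.toAlgHomClass bot_nonempty SubringClass.nonUnitalSubringClass
  NonAssocCommSemiring.toNonAssocSemiring SubsemiringClass.toSemiring instIsFractionRing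
  Localization.AtPrime.instIsScalarTowerOfIsLiesOverAlgebra SubsemiringClass.toNonAssocSemiring
  IsLocalRing.toNontrivial FloorSemiring.instCharZero
  instNonUnitalAlgHomClassOfNonUnitalAlgEquivClass MulSemiringAction.toDistribMulAction
  AlgEquivClass.toAlgHomClass ContinuousMonoidHom.instCoeOutOfMonoidHomClassOfContinuousMapClass

-- part MP_ccce09_ag.H83.Canon
section

/-! The canonical module of the affine cone itself. -/

set_option autoImplicit false
set_option linter.style.haveILetI false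
set_option linter.unusedSectionVars false

open AddMonoidAlgebra

namespace Pool.Agent.MP_ccce09_ag.H83

variable (p : ℕ) [Fact p.Prime]

/-- monomials -/
noncomputable def x0 (w : sig) : R0 p := single w 1

lemma x0_ne (w : sig) : x0 p w ≠ 0 := by simp [x0]

lemma x0_add (a b : sig) : x0 p (a + b) = x0 p a * x0 p b := by
  rw [x0, x0, x0, single_mul_single, one_mul]

lemma x0_zero : x0 p 0 = 1 := rfl

noncomputable def dd0 (w : sig) : Ω[R0 p⁄ZMod p] :=
  KaehlerDifferential.D (ZMod p) (R0 p) (x0 p w)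

noncomputable def th0 (l : sig →+ ℤ) : Ω[R0 p⁄ZMod p] →ₗ[R0 p] R0 p :=
  (theta p l).liftKaehlerDifferential

lemma th0_dd (l : sig →+ ℤ) (w : sig) : th0 p l (dd0 p w) = (l w : R0 p) * x0 p w := by
  rw [th0, dd0, Derivation.liftKaehlerDifferential_comp_D, x0, theta_single]

lemma span_dd0 : Submodule.span (R0 p) (Set.range (dd0 p)) = ⊤ := by
  rw [eq_top_iff, ← KaehlerDifferential.span_range_derivation, Submodule.span_le]
  rintro _ ⟨a, rfl⟩
  simp only [SetLike.mem_coe]
  induction a using AddMonoidAlgebra.induction_linear with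
  | zero => simp
  | add a b ha hb => rw [map_add]; exact add_mem ha hb
  | single w c =>
    have : (single w c : R0 p) = c • x0 p w := by
      rw [x0, smul_single', mul_one]
    rw [this, Derivation.map_smul]
    exact Submodule.smul_of_tower_mem _ _ (Submodule.subset_span ⟨w, rfl⟩)

noncomputable def jac0 : (⋀[R0 p]^3 Ω[R0 p⁄ZMod p]) →ₗ[R0 p] R0 p :=
  exteriorPower.alternatingMapLinearEquiv
    ((Matrix.detRowAlternating : (Fin 3 → R0 p) [⋀^Fin 3]→ₗ[R0 p] R0 p).compLinearMap
      (LinearMap.pi ![th0 p l1, th0 p l2, th0 p l3]))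

lemma jac0_dd (w : Fin 3 → sig) : jac0 p (exteriorPower.ιMulti _ 3 fun i => dd0 p (w i)) =
    (dt (w 0).1 (w 1).1 (w 2).1 : R0 p) * x0 p (w 0 + w 1 + w 2) := by
  rw [jac0, exteriorPower.alternatingMapLinearEquiv_apply_ιMulti,
    AlternatingMap.compLinearMap_apply]
  change Matrix.det (Matrix.of fun i k =>
    (![th0 p l1, th0 p l2, th0 p l3] k) (dd0 p (w i))) = _
  rw [Matrix.det_fin_three]
  simp only [Matrix.of_apply, Matrix.cons_val_zero, Matrix.cons_val_one,
    Matrix.cons_val, th0_dd, x0_add, dt]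
  simp only [l1, l2, l3, AddMonoidHom.comp_apply, AddMonoidHom.coe_fst, AddMonoidHom.coe_snd,
    AddSubmonoid.coe_subtype]
  push_cast
  ring

noncomputable def mu0 : ⋀[R0 p]^3 Ω[R0 p⁄ZMod p] :=
  exteriorPower.ιMulti _ 3 fun i => dd0 p (![a0, a1, b0] i)

lemma sat_dd0 (w : sig) : ∃ b : R0 p, b ≠ 0 ∧ b • dd0 p w ∈
    Submodule.span (R0 p) (Set.range fun i => dd0 p (![a0, a1, b0] i)) := by
  set N := Submodule.span (R0 p) (Set.range fun i => dd0 p (![a0, a1, b0] i))
  have hadd : ∀ a b : sig, dd0 p a ∈ N → dd0 p b ∈ N → dd0 p (a + b) ∈ N := by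
    intro a b ha hb
    rw [dd0, x0_add, Derivation.leibniz]
    exact add_mem (N.smul_mem _ hb) (N.smul_mem _ ha)
  have hn : ∀ (n : ℕ) (a : sig), dd0 p a ∈ N → dd0 p (n • a) ∈ N := by
    intro n a ha
    induction n with
    | zero => rw [zero_smul, dd0, x0_zero, Derivation.map_one_eq_zero]; exact zero_mem _
    | succ n ih => rw [succ_nsmul]; exact hadd _ _ ih ha
  have g0 : dd0 p a0 ∈ N := Submodule.subset_span ⟨0, rfl⟩
  have g1 : dd0 p a1 ∈ N := Submodule.subset_span ⟨1, rfl⟩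
  have g2 : dd0 p b0 ∈ N := Submodule.subset_span ⟨2, rfl⟩
  obtain ⟨⟨i, j, n⟩, h⟩ := w
  have h' := mem_sig.mp h
  simp only at h'
  obtain ⟨i, rfl⟩ := Int.eq_ofNat_of_zero_le h'.1
  obtain ⟨j, rfl⟩ := Int.eq_ofNat_of_zero_le h'.2.1
  obtain ⟨n, rfl⟩ := Int.eq_ofNat_of_zero_le (by omega : 0 ≤ n)
  have e : (i + j) • a0 + ⟨_, h⟩ = i • b0 + j • a1 + n • a0 := by
    ext <;> simp only [a0, gen, AddSubmonoidClass.mk_nsmul, Prod.smul_mk, nsmul_zero, Int.nsmul_eq_mul, Nat.cast_add, mul_one, AddSubmonoid.mk_add_mk, Prod.mk_add_mk, zero_add, b0, a1, add_zero]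
  have h1 := hadd _ _ (hadd _ _ (hn i _ g2) (hn j _ g1)) (hn n _ g0)
  rw [← e, dd0, x0_add, Derivation.leibniz] at h1
  exact ⟨_, x0_ne p _, (Submodule.add_mem_iff_left _ (N.smul_mem _ (hn (i + j) _ g0))).mp h1⟩

lemma iMulti_mem0 (v : Fin 3 → Ω[R0 p⁄ZMod p])
    (hv : ∀ i, v i ∈ Submodule.span (R0 p) (Set.range fun i => dd0 p (![a0, a1, b0] i))) :
    exteriorPower.ιMulti _ 3 v ∈ Submodule.span (R0 p) {mu0 p} := by
  simp only [Submodule.mem_span_range_iff_exists_fun] at hv
  choose A hA using hv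
  have : v = fun i => ∑ k, A i k • dd0 p (![a0, a1, b0] k) := funext fun i => (hA i).symm
  rw [this]
  change (exteriorPower.ιMulti (R0 p) 3).toMultilinearMap _ ∈ _
  rw [MultilinearMap.map_sum]
  refine Submodule.sum_mem _ fun r _ => ?_
  rw [MultilinearMap.map_smul_univ]
  apply Submodule.smul_mem
  change exteriorPower.ιMulti (R0 p) 3 ((fun i => dd0 p (![a0, a1, b0] i)) ∘ r) ∈ _
  by_cases hr : Function.Injective r
  · let σ : Equiv.Perm (Fin 3) := Equiv.ofBijective r (Finite.injective_iff_bijective.mp hr)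
    have := (exteriorPower.ιMulti (R0 p) 3).map_perm (fun i => dd0 p (![a0, a1, b0] i)) σ
    rw [show r = ⇑σ from rfl, this, Units.smul_def]
    exact Submodule.smul_of_tower_mem _ _ (Submodule.mem_span_singleton_self _)
  · rw [AlternatingMap.map_eq_zero_of_not_injective _ _ fun h => hr h.of_comp]
    exact zero_mem _

lemma ext_induction0 (P : Submodule (R0 p) (⋀[R0 p]^3 Ω[R0 p⁄ZMod p]))
    (h : ∀ w : Fin 3 → sig, exteriorPower.ιMulti _ 3 (fun i => dd0 p (w i)) ∈ P) (m) : m ∈ P := by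
  have : (⊤ : Submodule (R0 p) _) ≤ P := by
    rw [← exteriorPower.ιMulti_span_of_span (R0 p) 3 _ (span_dd0 p), Submodule.span_le]
    rintro _ ⟨a, ha, rfl⟩
    have : ∀ i, ∃ w, dd0 p w = a i := fun i => ha ⟨i, rfl⟩
    choose w hw using this
    have e : a = fun i => dd0 p (w i) := funext fun i => (hw i).symm
    rw [e]
    exact h w
  exact this trivial

lemma rank_one_ext0 (m : ⋀[R0 p]^3 Ω[R0 p⁄ZMod p]) :
    ∃ b : R0 p, b ≠ 0 ∧ ∃ r : R0 p, b • m = r • mu0 p := by
  let P : Submodule (R0 p) (⋀[R0 p]^3 Ω[R0 p⁄ZMod p]) :=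
    { carrier := {m | ∃ b : R0 p, b ≠ 0 ∧ ∃ r : R0 p, b • m = r • mu0 p}
      add_mem' := by
        rintro x y ⟨b, hb, r, h⟩ ⟨c, hc, s, h'⟩
        refine ⟨b * c, mul_ne_zero hb hc, c * r + b * s, ?_⟩
        have e1 : (b * c) • x = (c * r) • mu0 p := by rw [mul_comm b c, mul_smul, h, mul_smul]
        have e2 : (b * c) • y = (b * s) • mu0 p := by rw [mul_smul, h', mul_smul]
        rw [smul_add, e1, e2, add_smul]
      zero_mem' := ⟨1, one_ne_zero, 0, by simp⟩
      smul_mem' := by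
        rintro c x ⟨b, hb, r, h⟩
        exact ⟨b, hb, c * r, by rw [smul_comm, h, mul_smul]⟩ }
  refine ext_induction0 p P (fun w => ?_) m
  choose b hb hb2 using fun i => sat_dd0 p (w i)
  obtain ⟨r, hr⟩ := Submodule.mem_span_singleton.mp (iMulti_mem0 p _ hb2)
  refine ⟨∏ i, b i, Finset.prod_ne_zero_iff.mpr fun i _ => hb i, r, ?_⟩
  rw [hr, AlternatingMap.map_smul_univ]

/-- the two test monomials as elements of the semigroup -/
def v1 : sig := a0 + a1 + b0
def v2 : sig := b1 + b2 + a2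

lemma v1_val : v1.1 = u1 := by decide
lemma v2_val : v2.1 = u2 := by decide

/-- minus the toric canonical divisor -/
noncomputable def aK0 (Q : PrimeDiv (R0 p)) : ℤ :=
  min (ordElt (R0 p) Q (x0 p v1)) (ordElt (R0 p) Q (x0 p v2))

lemma aK0_finite : {Q | aK0 p Q ≠ 0}.Finite := by
  refine ((finite_mem (x0_ne p v1)).union (finite_mem (x0_ne p v2))).subset ?_
  intro Q hQ
  by_contra h
  simp only [Set.mem_union, Set.mem_ofPred_eq, not_or] at h
  apply hQ
  rw [aK0, (ordElt_eq_zero_iff Q (x0_ne p _)).mpr h.1, (ordElt_eq_zero_iff Q (x0_ne p _)).mpr h.2]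
  rfl

lemma aK0_nonneg (Q : PrimeDiv (R0 p)) : 0 ≤ aK0 p Q :=
  le_min (ordElt_nonneg _ _) (ordElt_nonneg _ _)

lemma key_step {a b : R0 p} (h : a * x0 p v2 = b * x0 p v1) (w : sig) (hw : w.1 ∈ AA (-1)) :
    ∃ r : R0 p, r * x0 p v1 = a * x0 p w := by
  have h1 := congrArg (iota p) h
  rw [map_mul, map_mul, x0, x0, iota_single, iota_single, v1_val, v2_val] at h1
  have h2 : iota p a = iota p b * single (u1 - u2) 1 := by
    have := congrArg (fun z : T p => z * single (-u2) 1) h1
    simp only [mul_assoc, single_mul_single, add_neg_cancel, mul_one] at this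
    rw [← sub_eq_add_neg] at this
    rw [← this]
    exact (mul_one _).symm
  have h3 : iota p a ∈ TA p {v | v + u2 - u1 ∈ sig} := by
    rw [h2]
    refine TA_mul (iota_mem b) (single_mem_TA (A := {u1 - u2}) rfl 1) ?_
    rintro v hv _ rfl
    change v + (u1 - u2) + u2 - u1 ∈ sig
    rw [show v + (u1 - u2) + u2 - u1 = v by abel]
    exact hv
  have h4 : iota p a ∈ TA p {v | v ∈ sig ∧ v + u2 - u1 ∈ sig} :=
    mem_TA.mpr fun v hv => ⟨mem_TA.mp (iota_mem a) v hv, mem_TA.mp h3 v hv⟩
  obtain ⟨r, hr⟩ := exists_iota (TA_mul (C := sig) h4 (single_mem_TA (A := {w.1 - u1}) rfl 1) (by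
    obtain ⟨⟨d, e, f⟩, hw0⟩ := w
    rintro ⟨a, b, c⟩ ⟨h5, h6⟩ _ rfl
    simp only [AA, Set.mem_ofPred_eq] at hw
    simp only [SetLike.mem_coe, mem_sig, u1, u2, Prod.mk_add_mk, Prod.mk_sub_mk] at h5 h6 ⊢
    omega))
  refine ⟨r, iota_inj p ?_⟩
  rw [map_mul, map_mul, hr, x0, x0, iota_single, iota_single, v1_val, mul_assoc,
    single_mul_single, sub_add_cancel, mul_one]

lemma jac0_mu : jac0 p (mu0 p) = - x0 p v1 := by
  rw [mu0, jac0_dd]
  have : dt a0.1 a1.1 b0.1 = -1 := by decide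
  simp [this, v1]

lemma dual_ext0 : Nonempty (Module.Dual (R0 p) (⋀[R0 p]^3 Ω[R0 p⁄ZMod p]) ≃ₗ[R0 p]
    divMod (R0 p) (aK0 p)) := by
  refine dual_equiv (Algebra.linearMap (R0 p) (FractionRing (R0 p)) ∘ₗ jac0 p) (mu0 p) ?_
    (rank_one_ext0 p) _ fun h => ?_
  · change algebraMap _ _ (jac0 p (mu0 p)) ≠ 0
    rw [jac0_mu]
    exact algK_ne (neg_ne_zero.mpr (x0_ne p _))
  by_cases h0 : h = 0
  · rw [h0]; exact ⟨fun _ _ => ⟨0, by simp⟩, fun _ => zero_mem _⟩
  have ho : ∀ w Q, ordAt (R0 p) Q (h * algebraMap _ _ (x0 p w)) =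
      ordAt (R0 p) Q h + ordElt (R0 p) Q (x0 p w) := fun w Q => by
    rw [ordAt_mul Q h0 (algK_ne (x0_ne p w)), ordAt_alg Q (x0_ne p w)]
  constructor
  · intro hh m
    have hh' := (mem_divMod.mp hh).resolve_left h0
    obtain ⟨a, ha⟩ := mem_range_of_ord (f := h * algebraMap _ _ (x0 p v1)) fun Q => by
      have := hh' Q
      have : aK0 p Q ≤ ordElt (R0 p) Q (x0 p v1) := min_le_left _ _
      rw [ho]; omega
    obtain ⟨b, hb⟩ := mem_range_of_ord (f := h * algebraMap _ _ (x0 p v2)) fun Q => by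
      have := hh' Q
      have : aK0 p Q ≤ ordElt (R0 p) Q (x0 p v2) := min_le_right _ _
      rw [ho]; omega
    have hab : a * x0 p v2 = b * x0 p v1 := by
      apply IsFractionRing.injective (R0 p) (FractionRing (R0 p))
      rw [map_mul, map_mul, ha, hb]; ring
    let P : Submodule (R0 p) (⋀[R0 p]^3 Ω[R0 p⁄ZMod p]) :=
      (LinearMap.range (Algebra.linearMap (R0 p) (FractionRing (R0 p)))).comap
        (LinearMap.mulLeft (R0 p) h ∘ₗ Algebra.linearMap (R0 p) (FractionRing (R0 p)) ∘ₗ jac0 p)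
    refine ext_induction0 p P (fun w => ?_) m
    change ∃ r, algebraMap _ (FractionRing (R0 p)) r = h * algebraMap _ _ (jac0 p _)
    rw [jac0_dd]
    by_cases hd : dt (w 0).1 (w 1).1 (w 2).1 = 0
    · exact ⟨0, by simp [hd]⟩
    obtain ⟨r, hr⟩ := key_step p hab _ (dt_AA _ _ _ hd)
    refine ⟨(dt (w 0).1 (w 1).1 (w 2).1 : R0 p) * r, ?_⟩
    have h5 := congrArg (algebraMap _ (FractionRing (R0 p))) hr
    rw [map_mul, map_mul, ha] at h5
    apply mul_right_cancel₀ (algK_ne (x0_ne p v1))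
    rw [map_mul, map_mul, mul_assoc, h5]; ring
  · intro hh
    refine mem_divMod.mpr (Or.inr fun Q => ?_)
    obtain ⟨r, hr⟩ := hh (mu0 p)
    obtain ⟨s, hs⟩ := hh (exteriorPower.ιMulti _ 3 fun i => dd0 p (![b1, b2, a2] i))
    change _ = h * algebraMap _ _ (jac0 p _) at hr hs
    rw [jac0_mu] at hr
    rw [jac0_dd] at hs
    have d2 : dt b1.1 b2.1 a2.1 = 1 := by decide
    have hr' : algebraMap _ _ (-r) = h * algebraMap _ _ (x0 p v1) := by
      rw [map_neg, hr, map_neg, mul_neg, neg_neg]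
    have hs' : algebraMap _ _ s = h * algebraMap _ _ (x0 p v2) := by
      rw [hs]
      simp only [Matrix.cons_val_zero, Matrix.cons_val_one, Matrix.cons_val, d2, Int.cast_one,
        one_mul]
      rfl
    have n1 : -r ≠ 0 := fun e => mul_ne_zero h0 (algK_ne (x0_ne p v1)) (by rw [← hr', e, map_zero])
    have n2 : s ≠ 0 := fun e => mul_ne_zero h0 (algK_ne (x0_ne p v2)) (by rw [← hs', e, map_zero])
    have h1 := ordAt_alg_nonneg Q n1
    have h2 := ordAt_alg_nonneg Q n2
    rw [hr', ho] at h1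
    rw [hs', ho] at h2
    rw [aK0]
    omega

lemma bidual_ext0 : Nonempty (Module.Dual (R0 p) (Module.Dual (R0 p) (⋀[R0 p]^3 Ω[R0 p⁄ZMod p]))
    ≃ₗ[R0 p] divMod (R0 p) fun Q => - aK0 p Q) := by
  obtain ⟨e1⟩ := dual_ext0 p
  obtain ⟨e2⟩ := dual_divMod (aK0 p) (aK0_finite p) (aK0_nonneg p)
  exact ⟨e1.symm.dualMap.trans e2⟩

lemma exists_canonical0 : ∃ K, IsCanonicalDivisor (R0 p) (ZMod p) 3 K := by
  obtain ⟨e⟩ := bidual_ext0 p
  refine ⟨Finsupp.ofSupportFinite (fun Q => - aK0 p Q) ((aK0_finite p).subset fun Q hQ => ?_),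
    ⟨⟨e.symm⟩⟩⟩
  simpa using hQ

lemma canonical_eq0 {K : PrimeDiv (R0 p) →₀ ℤ} (hK : IsCanonicalDivisor (R0 p) (ZMod p) 3 K) :
    ∃ c : FractionRing (R0 p), c ≠ 0 ∧ ∀ Q, K Q = - aK0 p Q + ordAt (R0 p) Q c := by
  obtain ⟨e⟩ := bidual_ext0 p
  obtain ⟨⟨e'⟩⟩ := hK
  exact eq_of_equiv K _ K.hasFiniteSupport ((aK0_finite p).subset fun Q hQ => by simpa using hQ)
    (e'.trans e)

end Pool.Agent.MP_ccce09_ag.H83

end

-- part MP_ccce09_ag.H83.Main
section

/-! Transport from the affine cone to its local ring at the vertex. -/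

set_option autoImplicit false
set_option linter.style.haveILetI false
set_option linter.unusedSectionVars false

open AddMonoidAlgebra Filter Topology

namespace Pool.Agent.MP_ccce09_ag.H83

section general

lemma addVal_equiv {A B : Type} [CommRing A] [IsDomain A] [IsDiscreteValuationRing A]
    [CommRing B] [IsDomain B] [IsDiscreteValuationRing B] (e : A ≃+* B) {x : A} (hx : x ≠ 0) :
    IsDiscreteValuationRing.addVal B (e x) = IsDiscreteValuationRing.addVal A x := by
  obtain ⟨ϖ, hϖ⟩ := IsDiscreteValuationRing.exists_irreducible A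
  obtain ⟨n, u, rfl⟩ := IsDiscreteValuationRing.eq_unit_mul_pow_irreducible hx hϖ
  rw [IsDiscreteValuationRing.addVal_def' u hϖ n]
  exact IsDiscreteValuationRing.addVal_def _ (Units.map (e : A →* B) u)
    ((MulEquiv.irreducible_iff e).mpr hϖ) n (by simp)

variable {R : Type} [CommRing R] [IsDomain R] [IsNoetherianRing R] [IsIntegrallyClosed R]
  (P : Ideal R) [P.IsPrime]

lemma loc_normal : IsIntegrallyClosed (Localization.AtPrime P) :=
  isIntegrallyClosed_of_isLocalization _ P.primeCompl P.primeCompl_le_nonZeroDivisors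

lemma loc_ne {a : R} (ha : a ≠ 0) : algebraMap R (Localization.AtPrime P) a ≠ 0 := by
  rwa [Ne, map_eq_zero_iff _ (IsLocalization.injective _ P.primeCompl_le_nonZeroDivisors)]

lemma ordElt_under (Q : PrimeDiv (Localization.AtPrime P)) {a : R} (ha : a ≠ 0) :
    ordElt (Localization.AtPrime P) Q (algebraMap R _ a) = ordElt R (underDiv R P Q) a := by
  haveI := loc_normal P
  haveI := dvr Q
  haveI := dvr (underDiv R P Q)
  obtain ⟨n, h1, h2⟩ := ordElt_spec Q (loc_ne P ha)
  obtain ⟨m, h3, h4⟩ := ordElt_spec (underDiv R P Q) ha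
  let e : Localization.AtPrime (underDiv R P Q).1.asIdeal ≃ₐ[R]
      Localization.AtPrime Q.1.asIdeal :=
    IsLocalization.localizationLocalizationAtPrimeIsoLocalization P.primeCompl Q.1.asIdeal
  have h5 := addVal_equiv e.toRingEquiv (alg_ne (underDiv R P Q) ha)
  have h6 : e.toRingEquiv (algebraMap R _ a) = algebraMap (Localization.AtPrime P) _
      (algebraMap R (Localization.AtPrime P) a) :=
    (e.commutes a).trans (IsScalarTower.algebraMap_apply R _ _ a)
  rw [h6, h2, h4] at h5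
  have : n = m := by exact_mod_cast h5
  omega

omit [IsDomain R] [IsNoetherianRing R] [IsIntegrallyClosed R] in
lemma notMem_under (Q : PrimeDiv (Localization.AtPrime P)) {f : R} (hf : f ∉ P) :
    f ∉ (underDiv R P Q).1.asIdeal := fun h =>
  Q.1.2.ne_top (Q.1.asIdeal.eq_top_of_isUnit_mem h
    (IsLocalization.map_units (Localization.AtPrime P) (⟨f, hf⟩ : P.primeCompl)))

variable {S : Type} [CommRing S] [IsDomain S] [IsNoetherianRing S] [IsIntegrallyClosed S]
  (j : R →+* S) (hj : Function.Injective j)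

/-- the induced map of fraction fields -/
noncomputable def fr : FractionRing R →+* FractionRing S :=
  IsFractionRing.lift (g := (algebraMap S (FractionRing S)).comp j)
    ((IsFractionRing.injective S (FractionRing S)).comp hj)

lemma fr_alg (a : R) : fr j hj (algebraMap R _ a) = algebraMap S (FractionRing S) (j a) := by
  simp [fr]

lemma ordAt_fr (Q : PrimeDiv S) (Q' : PrimeDiv R)
    (H : ∀ a : R, a ≠ 0 → ordElt S Q (j a) = ordElt R Q' a) {g : FractionRing R} (hg : g ≠ 0) :
    ordAt S Q (fr j hj g) = ordAt R Q' g := by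
  obtain ⟨a, b, ha, hb, h⟩ := exists_frac hg
  rw [ordAt_eq _ ha hb h, ordAt_eq Q ((map_ne_zero_iff j hj).mpr ha) ((map_ne_zero_iff j hj).mpr hb)
    (by rw [← fr_alg j hj, ← fr_alg j hj, ← map_mul, h]), H a ha, H b hb]

include hj in
lemma qc_transport (u : PrimeDiv S → PrimeDiv R)
    (H : ∀ Q, ∀ a : R, a ≠ 0 → ordElt S Q (j a) = ordElt R (u Q) a)
    (H' : ∀ Q, ∀ f ∉ P, f ∉ (u Q).1.asIdeal)
    {p : ℕ} {K : PrimeDiv R →₀ ℤ} {Δ : PrimeDiv R →₀ ℚ}
    (hQ : QCartierNear R P p K Δ) (K1 : PrimeDiv S →₀ ℤ) (Δ1 : PrimeDiv S →₀ ℚ)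
    (hΔ : ∀ Q, Δ1 Q = Δ (u Q)) (A : PrimeDiv R → ℤ) {c : FractionRing R} (hc : c ≠ 0)
    (hK : ∀ Q, K Q = A Q + ordAt R Q c) {c1 : FractionRing S}
    (hc1 : c1 ≠ 0) (hK1 : ∀ Q, K1 Q = A (u Q) + ordAt S Q c1) :
    QCartierPrimeTo S p K1 Δ1 := by
  obtain ⟨n, hn, hpn, f, hf, g, hg, h⟩ := hQ
  have n1 : fr j hj g ≠ 0 := (map_ne_zero _).mpr hg
  have n2 : fr j hj c ≠ 0 := (map_ne_zero _).mpr hc
  refine ⟨n, hn, hpn, fr j hj g * (c1 * (fr j hj c)⁻¹) ^ n,
    mul_ne_zero n1 (pow_ne_zero _ (mul_ne_zero hc1 (inv_ne_zero n2))), fun Q => ?_⟩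
  rw [ordAt_mul Q n1 (pow_ne_zero _ (mul_ne_zero hc1 (inv_ne_zero n2))),
    ordAt_pow Q (mul_ne_zero hc1 (inv_ne_zero n2)), ordAt_mul Q hc1 (inv_ne_zero n2),
    ordAt_inv Q n2, ordAt_fr j hj Q _ (H Q) hg, ordAt_fr j hj Q _ (H Q) hc, hK1]
  push_cast
  rw [h _ (H' Q f hf), hK, hΔ]
  push_cast
  ring

end general

variable (p : ℕ) [Fact p.Prime]

lemma charP_loc : CharP (Localization.AtPrime (m0 p)) p := inferInstanceAs (CharP (RR p) p)

/-- the prime divisor of the cone under a prime divisor of the local ring -/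
noncomputable def und (Q : PrimeDiv (RR p)) : PrimeDiv (R0 p) := underDiv (R0 p) (m0 p) Q

lemma ord_und (Q : PrimeDiv (RR p)) (a : R0 p) (ha : a ≠ 0) :
    ordElt (RR p) Q (algebraMap (R0 p) (RR p) a) = ordElt (R0 p) (und p Q) a :=
  ordElt_under (m0 p) Q ha

lemma aK_under (Q : PrimeDiv (RR p)) : aK p Q = aK0 p (und p Q) := by
  have h : ∀ w : sig, ordAt (RR p) Q (XX p w.1) = ordElt (R0 p) (und p Q) (x0 p w) := fun w => by
    rw [← xR_alg, ordAt_alg Q (xR_ne p w)]
    exact ord_und p Q _ (x0_ne p w)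
  rw [aK, aK0, ← v1_val, ← v2_val, h, h]

theorem pair_bound0 {K : PrimeDiv (R0 p) →₀ ℤ} (hK : IsCanonicalDivisor (R0 p) (ZMod p) 3 K)
    {Δ : PrimeDiv (R0 p) →₀ ℚ} (hΔ : ∀ Q, 0 ≤ Δ Q) (hQ : QCartierNear (R0 p) (m0 p) p K Δ) :
    haveI := charP_loc p
    liminf (pairSeq (Localization.AtPrime (m0 p)) p (restrictDiv (R0 p) (m0 p) Δ) 3) atTop
      ≤ 1 / 6 := by
  obtain ⟨c, hc, hKc⟩ := canonical_eq0 p hK
  obtain ⟨K1, hK1⟩ := exists_canonical p
  obtain ⟨c1, hc1, hKc1⟩ := canonical_eq p hK1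
  have h := qc_transport (m0 p) (algebraMap (R0 p) (RR p)) (alg_inj p) (und p) (ord_und p)
    (fun Q f hf => notMem_under (m0 p) Q hf) hQ K1 (restrictDiv (R0 p) (m0 p) Δ) (fun _ => rfl)
    (fun Q => - aK0 p Q) hc hKc hc1 (fun Q => by rw [← aK_under]; exact hKc1 Q)
  exact pair_bound hK1 (fun Q => hΔ _) h

theorem fsig0 : haveI := charP_loc p
    Tendsto (fsigSeq (Localization.AtPrime (m0 p)) p 3) atTop (𝓝 (1 / 4)) := fsig

theorem ffinite0 (e : ℕ) : Module.Finite (R0 p) (frobPush (R0 p) p e (R0 p)) := by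
  classical
  let x : M → frobPush (R0 p) p e (R0 p) := fun w => if h : w ∈ sig then x0 p ⟨w, h⟩ else 0
  refine ⟨⟨(Low (2 * p ^ e)).image x, ?_⟩⟩
  set N := Submodule.span (R0 p) (SetLike.coe ((Low (2 * p ^ e)).image x))
  have hs : ∀ (c r : R0 p), (show frobPush (R0 p) p e (R0 p) from r) ∈ N →
      (show frobPush (R0 p) p e (R0 p) from c ^ p ^ e * r) ∈ N := fun c r h => N.smul_mem c h
  have hq := qz_pos (p := p) e
  have hmon : ∀ n : ℕ, ∀ w : sig, w.1.2.2 < n →
      (show frobPush (R0 p) p e (R0 p) from x0 p w) ∈ N := by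
    intro n
    induction n with
    | zero => intro w h; have := deg_nonneg w; omega
    | succ n ih =>
      intro w h
      by_cases h2 : w.1.2.2 < (2 * p ^ e : ℕ)
      · refine Submodule.subset_span (Finset.mem_coe.mpr
          (Finset.mem_image.mpr ⟨w.1, mem_Low.mpr ⟨w.2, h2⟩, ?_⟩))
        exact dif_pos w.2
      push_cast at h2
      obtain ⟨g, hg, hg1, hg2⟩ : ∃ g ∈ sig, g.2.2 = 1 ∧ w.1 - (p ^ e) • g ∈ sig := by
        have := mem_sig.mp w.2
        refine ⟨(if p ^ e ≤ w.1.1 then 1 else 0, if 2 * p ^ e ≤ w.1.2.1 then 2 else 0, 1), ?_,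
          rfl, ?_⟩
        · rw [mem_sig]; simp only; split_ifs <;> omega
        · rw [q_smul, mem_sig]
          simp only [Prod.fst_sub, Prod.snd_sub]
          split_ifs <;> omega
      have h3 := hs (x0 p ⟨g, hg⟩) _ (ih ⟨_, hg2⟩ (by
        change (w.1 - (p ^ e) • g).2.2 < n
        rw [q_smul]; simp only [Prod.snd_sub, hg1]; omega))
      have : x0 p ⟨g, hg⟩ ^ p ^ e * x0 p ⟨_, hg2⟩ = x0 p w := by
        rw [x0, x0, x0, single_pow, single_mul_single, one_pow, one_mul]
        congr 1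
        exact Subtype.ext (add_sub_cancel _ _)
      rw [← this]
      exact h3
  rw [eq_top_iff]
  intro r _
  change (show frobPush (R0 p) p e (R0 p) from (show R0 p from r)) ∈ N
  induction (show R0 p from r) using AddMonoidAlgebra.induction_linear with
  | zero => exact N.zero_mem
  | add a b ha hb => exact N.add_mem ha hb
  | single w c =>
    have : (single w c : R0 p) = single 0 c ^ p ^ e * x0 p w := by
      rw [x0, single_pow, single_mul_single, ZMod.pow_card_pow]
      simp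
    rw [this]
    exact hs _ _ (hmon (w.1.2.2.toNat + 1) w (by omega))

theorem not_local : ¬ IsLocalRing (R0 p) := by
  intro h
  let ev1 : R0 p →ₐ[ZMod p] ZMod p := AddMonoidAlgebra.lift (ZMod p) (ZMod p) sig 1
  have e1 : ev1 (x0 p a0) = 1 := by simp only [ev1, x0, lift_single, MonoidHom.one_apply, smul_eq_mul, mul_one]
  have e0 : ev0 p (x0 p a0) = 0 := by rw [x0, ev0_single, if_neg (by decide)]
  rcases IsLocalRing.isUnit_or_isUnit_one_sub_self (x0 p a0) with h1 | h1
  · have := h1.map (ev0 p)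
    rw [e0] at this
    exact not_isUnit_zero this
  · have := h1.map ev1
    rw [map_sub, map_one, e1, sub_self] at this
    exact not_isUnit_zero this

theorem dim0 : ringKrullDim (R0 p) = 3 := by
  apply le_antisymm
  · let A := MvPolynomial (Fin 3) (ZMod p)
    let φ : A →ₐ[ZMod p] R0 p :=
      MvPolynomial.aeval ![x0 p a0, x0 p b2, x0 p a2 - x0 p b0]
    letI : Algebra A (R0 p) := φ.toRingHom.toAlgebra
    have hX : ∀ i, IsIntegral A ((![x0 p a0, x0 p b2, x0 p a2 - x0 p b0] : Fin 3 → R0 p) i) :=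
      fun i => by
        have : algebraMap A (R0 p) (MvPolynomial.X i) =
            (![x0 p a0, x0 p b2, x0 p a2 - x0 p b0] : Fin 3 → R0 p) i :=
          MvPolynomial.aeval_X _ i
        rw [← this]; exact isIntegral_algebraMap
    have g0 : IsIntegral A (x0 p a0) := hX 0
    have g1 : IsIntegral A (x0 p b2) := hX 1
    have g2 : IsIntegral A (x0 p a2 - x0 p b0) := hX 2
    have mm : ∀ a b c d : sig, a + b = c + d → x0 p a * x0 p b = x0 p c * x0 p d :=
      fun a b c d h => by rw [← x0_add, ← x0_add, h]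
    have g3 : IsIntegral A (x0 p a2) := by
      refine ⟨Polynomial.X ^ 2 - (Polynomial.C (MvPolynomial.X 2) * Polynomial.X +
        Polynomial.C (MvPolynomial.X 0 * MvPolynomial.X 1)), ?_, ?_⟩
      · apply Polynomial.monic_X_pow_sub
        exact Polynomial.degree_linear_lt
      · have k : ∀ i, algebraMap A (R0 p) (MvPolynomial.X i) =
            (![x0 p a0, x0 p b2, x0 p a2 - x0 p b0] : Fin 3 → R0 p) i :=
          fun i => MvPolynomial.aeval_X _ i
        simp only [Polynomial.eval₂_sub, Polynomial.eval₂_add, Polynomial.eval₂_mul,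
          Polynomial.eval₂_pow, Polynomial.eval₂_X, Polynomial.eval₂_C, map_mul, k]
        have := mm a0 b2 a2 b0 (by decide)
        simp only [Matrix.cons_val_zero, Matrix.cons_val_one, Matrix.cons_val]
        linear_combination -this
    have g4 : IsIntegral A (x0 p b0) := by simpa using g3.sub g2
    have g5 : IsIntegral A (x0 p a1) := by
      refine IsIntegral.of_pow (n := 2) (by norm_num) ?_
      rw [sq, mm a1 a1 a0 a2 (by decide)]; exact g0.mul g3
    have g6 : IsIntegral A (x0 p b1) := by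
      refine IsIntegral.of_pow (n := 2) (by norm_num) ?_
      rw [sq, mm b1 b1 b0 b2 (by decide)]; exact g4.mul g1
    have hm : ∀ n : ℕ, ∀ w : sig, w.1.2.2 = n → IsIntegral A (x0 p w) := by
      intro n
      induction n with
      | zero =>
        intro w hw
        by_cases h0 : w = 0
        · rw [h0, x0_zero]; exact isIntegral_one
        · have := deg_pos h0; omega
      | succ n ih =>
        intro w hw
        by_cases h0 : w = 0
        · rw [h0, x0_zero]; exact isIntegral_one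
        obtain ⟨g, hg, w', rfl, h⟩ := sig_step w h0
        rw [x0_add]
        refine IsIntegral.mul ?_ (ih w' (by omega))
        simp only [Set.mem_insert_iff, Set.mem_singleton_iff] at hg
        rcases hg with rfl | rfl | rfl | rfl | rfl | rfl <;> assumption
    haveI : Algebra.IsIntegral A (R0 p) := ⟨fun r => by
      induction r using AddMonoidAlgebra.induction_linear with
      | zero => exact isIntegral_zero
      | add a b ha hb => exact ha.add hb
      | single w c =>
        have : (single w c : R0 p) = algebraMap A (R0 p) (MvPolynomial.C c) * x0 p w := by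
          have : algebraMap A (R0 p) (MvPolynomial.C c) = algebraMap (ZMod p) (R0 p) c :=
            φ.commutes c
          rw [this, ← Algebra.smul_def, x0, smul_single', mul_one]
        rw [this]
        exact isIntegral_algebraMap.mul
          (hm w.1.2.2.toNat w (by have := deg_nonneg w; omega))⟩
    have h1 : ringKrullDim (R0 p) ≤ ringKrullDim A :=
      Order.krullDim_le_of_strictMono (PrimeSpectrum.comap (algebraMap A (R0 p)))
        fun I J h => Ideal.IsIntegral.comap_lt_comap (R := A) (I := I.asIdeal) (J := J.asIdeal) h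
    refine h1.trans (le_of_eq ?_)
    rw [MvPolynomial.ringKrullDim_of_isNoetherianRing, ringKrullDim_eq_zero_of_field]
    simp
  · have := Ideal.height_le_ringKrullDim_of_isPrime (I := m0 p)
    rw [height_m0] at this
    exact this

end Pool.Agent.MP_ccce09_ag.H83

end
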