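import Pool.Agent.MP_ccce09_ag.Mg.Count

-- part MP_ccce09_ag.Canon
section

/-! The canonical module of the cone. -/

set_option autoImplicit false
set_option linter.style.haveILetI false
set_option linter.unusedSectionVars false

open AddMonoidAlgebra

namespace Pool.Agent.MP_ccce09_ag

section general
variable {R : Type} [CommRing R] [IsDomain R]

lemma dual_equiv {Mo : Type} [AddCommGroup Mo] [Module R Mo] (j : Mo →ₗ[R] FractionRing R)
    (μ : Mo) (hμ : j μ ≠ 0) (hr : ∀ m, ∃ b : R, b ≠ 0 ∧ ∃ r : R, b • m = r • μ)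
    (N : Submodule R (FractionRing R))
    (hN : ∀ h, h ∈ N ↔ ∀ m, ∃ r : R, algebraMap R _ r = h * j m) :
    Nonempty (Module.Dual R Mo ≃ₗ[R] N) := by
  let Θ : Module.Dual R Mo →ₗ[R] FractionRing R :=
    { toFun := fun φ => algebraMap R _ (φ μ) / j μ
      map_add' := fun φ ψ => by simp [add_div]
      map_smul' := fun c φ => by simp [Algebra.smul_def, mul_div_assoc] }
  have key : ∀ φ m, algebraMap R _ (φ m) = Θ φ * j m := by
    intro φ m
    obtain ⟨b, hb, r, h⟩ := hr m
    have h1 := congrArg φ h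
    have h2 := congrArg j h
    simp only [map_smul, smul_eq_mul] at h1 h2
    rw [Algebra.smul_def, Algebra.smul_def] at h2
    apply mul_left_cancel₀ (algK_ne hb)
    rw [← map_mul, h1, mul_left_comm, h2, map_mul]
    change _ = algebraMap R _ (φ μ) / j μ * _
    field_simp
  have hinj : Function.Injective Θ := by
    intro φ ψ h
    ext m
    apply IsFractionRing.injective R (FractionRing R)
    rw [key, key, h]
  have hrange : LinearMap.range Θ = N := by
    ext h
    rw [hN]
    constructor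
    · rintro ⟨φ, rfl⟩ m
      exact ⟨φ m, key φ m⟩
    · intro H
      choose f hf using H
      let φ : Module.Dual R Mo :=
        { toFun := f
          map_add' := fun x y => IsFractionRing.injective R (FractionRing R) (by
            rw [map_add, hf, hf, hf, map_add, mul_add])
          map_smul' := fun c x => IsFractionRing.injective R (FractionRing R) (by
            simp only [RingHom.id_apply, smul_eq_mul, map_mul, hf, map_smul, Algebra.smul_def]
            ring) }
      refine ⟨φ, ?_⟩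
      change algebraMap R _ (f μ) / j μ = h
      rw [hf, mul_div_cancel_right₀ _ hμ]
  exact ⟨(LinearEquiv.ofInjective Θ hinj).trans (LinearEquiv.ofEq _ _ hrange)⟩

lemma rank_one (I : Submodule R (FractionRing R)) (μ : I) (hμ : (μ : FractionRing R) ≠ 0) (m : I) :
    ∃ b : R, b ≠ 0 ∧ ∃ r : R, b • m = r • μ := by
  obtain ⟨⟨a, b⟩, h⟩ := IsLocalization.surj (nonZeroDivisors R) ((m : FractionRing R) / μ)
  refine ⟨b, nonZeroDivisors.coe_ne_zero b, a, Subtype.ext ?_⟩
  simp only at h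
  simp only [Submodule.coe_smul, Algebra.smul_def]
  rw [← h]; field_simp

variable [IsNoetherianRing R] [IsIntegrallyClosed R]

lemma mem_divMod_zero {h : FractionRing R} :
    h ∈ divMod R (fun _ => 0) ↔ ∃ r : R, algebraMap R _ r = h := by
  rw [mem_divMod]
  constructor
  · rintro (rfl | h)
    · exact ⟨0, by simp⟩
    · exact mem_range_of_ord fun P => by simpa using h P
  · rintro ⟨r, rfl⟩
    by_cases hr : r = 0
    · left; simp [hr]
    · right; intro P; simpa using ordAt_alg_nonneg P hr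

lemma mul_mem_divMod {D E F : PrimeDiv R → ℤ} {g h : FractionRing R} (hg : g ∈ divMod R D)
    (hh : h ∈ divMod R E) (H : ∀ P, D P + E P ≤ F P) : g * h ∈ divMod R F := by
  rw [mem_divMod] at *
  by_cases g0 : g = 0
  · left; simp [g0]
  by_cases h0 : h = 0
  · left; simp [h0]
  right
  intro P
  have := hg.resolve_left g0 P
  have := hh.resolve_left h0 P
  have := H P
  rw [ordAt_mul P g0 h0]
  omega

lemma dual_divMod (D : PrimeDiv R → ℤ) (hD : {P | D P ≠ 0}.Finite) (h0 : ∀ P, 0 ≤ D P) :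
    Nonempty (Module.Dual R (divMod R D) ≃ₗ[R] divMod R fun P => - D P) := by
  have h1 : (1 : FractionRing R) ∈ divMod R D :=
    mem_divMod.mpr (Or.inr fun P => by rw [ordAt_one]; simpa using h0 P)
  refine dual_equiv (divMod R D).subtype ⟨1, h1⟩ (by simp) (rank_one _ _ (by simp)) _ fun h => ?_
  constructor
  · intro hh m
    exact mem_divMod_zero.mp (mul_mem_divMod hh m.2 fun P => by simp)
  · intro hh
    by_cases h0 : h = 0
    · rw [h0]; exact zero_mem _
    refine mem_divMod.mpr (Or.inr fun P => ?_)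
    have := ord_of_colon D (fun _ => 0) hD h0 (fun y hy => mem_divMod_zero.mpr (hh ⟨y, hy⟩)) P
    omega

lemma eq_of_equiv (D E : PrimeDiv R → ℤ) (hD : {P | D P ≠ 0}.Finite) (hE : {P | E P ≠ 0}.Finite)
    (φ : divMod R D ≃ₗ[R] divMod R E) :
    ∃ c : FractionRing R, c ≠ 0 ∧ ∀ P, D P = E P + ordAt R P c := by
  by_cases hP : IsEmpty (PrimeDiv R)
  · exact ⟨1, one_ne_zero, fun P => hP.elim P⟩
  obtain ⟨P0⟩ := not_isEmpty_iff.mp hP
  obtain ⟨f, hf, -, hf2⟩ := exists_approx D hD P0
  let μ : divMod R D := ⟨f, mem_divMod.mpr (Or.inr hf2)⟩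
  have hφ : (φ μ : FractionRing R) ≠ 0 := by
    intro h
    have : φ μ = 0 := Subtype.ext h
    rw [LinearEquiv.map_eq_zero_iff] at this
    exact hf (congrArg Subtype.val this)
  set c := (φ μ : FractionRing R) / f with hc
  have hc0 : c ≠ 0 := div_ne_zero hφ hf
  have key : ∀ y : divMod R D, (φ y : FractionRing R) = c * y := by
    intro y
    obtain ⟨b, hb, r, h⟩ := rank_one _ μ hf y
    have h1 := congrArg (fun z => (φ z : FractionRing R)) h
    have h2 := congrArg Subtype.val h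
    simp only [map_smul, Submodule.coe_smul, Algebra.smul_def] at h1 h2
    apply mul_left_cancel₀ (algK_ne hb)
    rw [h1, mul_left_comm, h2, hc]
    change _ = _ / f * (_ * f)
    field_simp
  refine ⟨c, hc0, fun P => ?_⟩
  have h1 := ord_of_colon D E hD hc0 (fun y hy => by rw [← key ⟨y, hy⟩]; exact (φ _).2) P
  have h2 := ord_of_colon E D hE (inv_ne_zero hc0) (fun y hy => by
    have := key (φ.symm ⟨y, hy⟩)
    rw [LinearEquiv.apply_symm_apply] at this
    change y = _ at this
    rw [this, inv_mul_cancel_left₀ hc0]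
    exact (φ.symm _).2) P
  rw [ordAt_inv P hc0] at h2
  omega

end general

variable (p : ℕ) [Fact p.Prime]

/-- logarithmic derivation attached to a linear functional on exponents -/
noncomputable def theta (l : sig →+ ℤ) : Derivation (ZMod p) (R0 p) (R0 p) :=
  Derivation.mk' ((AddMonoidAlgebra.basis sig (ZMod p)).constr (ZMod p)
    fun w => single w (l w : ZMod p)) (by
      have hs : ∀ (w : sig) (c : ZMod p), (AddMonoidAlgebra.basis sig (ZMod p)).constr (ZMod p)
          (fun w => single w (l w : ZMod p)) (single w c) = single w (c * l w) := by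
        intro w c
        have : (single w c : R0 p) = c • AddMonoidAlgebra.basis sig (ZMod p) w := by simp
        rw [this, map_smul, Module.Basis.constr_basis, smul_single']
      intro a b
      induction a using AddMonoidAlgebra.induction_linear with
      | zero => simp
      | add a a' ha ha' => simp only [add_mul, map_add, ha, ha', smul_add, add_smul]; abel
      | single v c =>
        induction b using AddMonoidAlgebra.induction_linear with
        | zero => simp
        | add b b' hb hb' => simp only [mul_add, map_add, hb, hb', smul_add, add_smul]; abel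
        | single w d =>
          simp only [single_mul_single, hs, smul_eq_mul, map_add, add_comm w v, ← single_add]
          congr 1
          push_cast; ring)

lemma theta_single (l : sig →+ ℤ) (w : sig) :
    theta p l (single w 1) = (l w : R0 p) * single w 1 := by
  have : (single w 1 : R0 p) = AddMonoidAlgebra.basis sig (ZMod p) w := by simp
  rw [theta, Derivation.coe_mk']
  conv_lhs => rw [this, Module.Basis.constr_basis]
  rw [intCast_def, single_mul_single]; simp

noncomputable def thetaR (l : sig →+ ℤ) : Ω[RR p⁄ZMod p] →ₗ[RR p] RR p :=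
  LinearMap.extendScalarsOfIsLocalization (m0 p).primeCompl (RR p)
    (IsLocalizedModule.lift (m0 p).primeCompl
      (KaehlerDifferential.map (ZMod p) (ZMod p) (R0 p) (RR p))
      ((Algebra.linearMap (R0 p) (RR p)).compDer (theta p l)).liftKaehlerDifferential
      (IsLocalizedModule.map_units (Algebra.linearMap (R0 p) (RR p))))

/-- monomials in the local ring -/
noncomputable def xR (w : sig) : RR p := algebraMap (R0 p) (RR p) (single w 1)

noncomputable def dd (w : sig) : Ω[RR p⁄ZMod p] := KaehlerDifferential.D (ZMod p) (RR p) (xR p w)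

lemma xR_alg (w : sig) : algebraMap _ (KK p) (xR p w) = XX p w.1 := by
  rw [XX_coe, mon, al0_eq, xR]

lemma xR_ne (w : sig) : xR p w ≠ 0 := fun h0 => XX_ne p w.1 (by rw [← xR_alg, h0, map_zero])

lemma xR_add (a b : sig) : xR p (a + b) = xR p a * xR p b := by
  rw [xR, xR, xR, ← map_mul, single_mul_single, one_mul]

lemma xR_zero : xR p 0 = 1 := map_one (algebraMap (R0 p) (RR p))

lemma thetaR_dd (l : sig →+ ℤ) (w : sig) : thetaR p l (dd p w) = (l w : RR p) * xR p w := by
  rw [dd, xR, ← KaehlerDifferential.map_D (ZMod p) (ZMod p) (R0 p) (RR p), thetaR,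
    LinearMap.extendScalarsOfIsLocalization_apply', IsLocalizedModule.lift_apply,
    Derivation.liftKaehlerDifferential_comp_D]
  change algebraMap (R0 p) (RR p) (theta p l _) = _
  rw [theta_single, map_mul, map_intCast]

lemma span_dd : Submodule.span (RR p) (Set.range (dd p)) = ⊤ := by
  rw [eq_top_iff, ← KaehlerDifferential.span_range_map_derivation_of_isLocalization
    (ZMod p) (R0 p) (RR p) (m0 p).primeCompl, Submodule.span_le]
  rintro _ ⟨a, rfl⟩
  simp only [Function.comp, KaehlerDifferential.map_D, SetLike.mem_coe]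
  induction a using AddMonoidAlgebra.induction_linear with
  | zero => simp
  | add a b ha hb => rw [map_add, map_add]; exact add_mem ha hb
  | single w c =>
    have : algebraMap (R0 p) (RR p) (single w c) = c • xR p w := by
      rw [xR, ← mul_one c, ← smul_single', mul_one]
      exact map_smul (IsScalarTower.toAlgHom (ZMod p) (R0 p) (RR p)) c _
    rw [this, Derivation.map_smul]
    exact Submodule.smul_of_tower_mem _ _ (Submodule.subset_span ⟨w, rfl⟩)

def l1 : sig →+ ℤ := (AddMonoidHom.fst ℤ (ℤ × ℤ)).comp sig.subtype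
def l2 : sig →+ ℤ := (AddMonoidHom.fst ℤ ℤ).comp ((AddMonoidHom.snd ℤ (ℤ × ℤ)).comp sig.subtype)
def l3 : sig →+ ℤ := (AddMonoidHom.snd ℤ ℤ).comp ((AddMonoidHom.snd ℤ (ℤ × ℤ)).comp sig.subtype)

noncomputable def jac : (⋀[RR p]^3 Ω[RR p⁄ZMod p]) →ₗ[RR p] RR p :=
  exteriorPower.alternatingMapLinearEquiv
    ((Matrix.detRowAlternating : (Fin 3 → RR p) [⋀^Fin 3]→ₗ[RR p] RR p).compLinearMap
      (LinearMap.pi ![thetaR p l1, thetaR p l2, thetaR p l3]))

def dt (a b c : M) : ℤ :=
  a.1 * (b.2.1 * c.2.2 - b.2.2 * c.2.1) - a.2.1 * (b.1 * c.2.2 - b.2.2 * c.1) +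
    a.2.2 * (b.1 * c.2.1 - b.2.1 * c.1)

lemma jac_dd (w : Fin 3 → sig) : jac p (exteriorPower.ιMulti _ 3 fun i => dd p (w i)) =
    (dt (w 0).1 (w 1).1 (w 2).1 : RR p) * xR p (w 0 + w 1 + w 2) := by
  rw [jac, exteriorPower.alternatingMapLinearEquiv_apply_ιMulti,
    AlternatingMap.compLinearMap_apply]
  change Matrix.det (Matrix.of fun i k =>
    (![thetaR p l1, thetaR p l2, thetaR p l3] k) (dd p (w i))) = _
  rw [Matrix.det_fin_three]
  simp only [Matrix.of_apply, Matrix.cons_val_zero, Matrix.cons_val_one,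
    Matrix.cons_val, thetaR_dd, xR_add, dt]
  simp only [l1, l2, l3, AddMonoidHom.comp_apply, AddMonoidHom.coe_fst, AddMonoidHom.coe_snd,
    AddSubmonoid.coe_subtype]
  push_cast
  ring

noncomputable def mu : ⋀[RR p]^3 Ω[RR p⁄ZMod p] :=
  exteriorPower.ιMulti _ 3 fun i => dd p (![a0, a1, b0] i)

lemma sat_dd (w : sig) : ∃ b : RR p, b ≠ 0 ∧ b • dd p w ∈
    Submodule.span (RR p) (Set.range fun i => dd p (![a0, a1, b0] i)) := by
  set N := Submodule.span (RR p) (Set.range fun i => dd p (![a0, a1, b0] i))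
  have hadd : ∀ a b : sig, dd p a ∈ N → dd p b ∈ N → dd p (a + b) ∈ N := by
    intro a b ha hb
    rw [dd, xR_add, Derivation.leibniz]
    exact add_mem (N.smul_mem _ hb) (N.smul_mem _ ha)
  have hn : ∀ (n : ℕ) (a : sig), dd p a ∈ N → dd p (n • a) ∈ N := by
    intro n a ha
    induction n with
    | zero => rw [zero_smul, dd, xR_zero, Derivation.map_one_eq_zero]; exact zero_mem _
    | succ n ih => rw [succ_nsmul]; exact hadd _ _ ih ha
  have g0 : dd p a0 ∈ N := Submodule.subset_span ⟨0, rfl⟩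
  have g1 : dd p a1 ∈ N := Submodule.subset_span ⟨1, rfl⟩
  have g2 : dd p b0 ∈ N := Submodule.subset_span ⟨2, rfl⟩
  obtain ⟨⟨i, j, n⟩, h⟩ := w
  have h' := mem_sig.mp h
  simp only at h'
  obtain ⟨i, rfl⟩ := Int.eq_ofNat_of_zero_le h'.1
  obtain ⟨j, rfl⟩ := Int.eq_ofNat_of_zero_le h'.2.1
  obtain ⟨n, rfl⟩ := Int.eq_ofNat_of_zero_le (by omega : 0 ≤ n)
  have e : (i + j) • a0 + ⟨_, h⟩ = i • b0 + j • a1 + n • a0 := by
    ext <;> simp [a0, a1, b0, gen]
  have h1 := hadd _ _ (hadd _ _ (hn i _ g2) (hn j _ g1)) (hn n _ g0)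
  rw [← e, dd, xR_add, Derivation.leibniz] at h1
  exact ⟨_, xR_ne p _, (Submodule.add_mem_iff_left _ (N.smul_mem _ (hn (i + j) _ g0))).mp h1⟩

lemma iMulti_mem (v : Fin 3 → Ω[RR p⁄ZMod p])
    (hv : ∀ i, v i ∈ Submodule.span (RR p) (Set.range fun i => dd p (![a0, a1, b0] i))) :
    exteriorPower.ιMulti _ 3 v ∈ Submodule.span (RR p) {mu p} := by
  simp only [Submodule.mem_span_range_iff_exists_fun] at hv
  choose A hA using hv
  have : v = fun i => ∑ k, A i k • dd p (![a0, a1, b0] k) := funext fun i => (hA i).symm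
  rw [this]
  change (exteriorPower.ιMulti (RR p) 3).toMultilinearMap _ ∈ _
  rw [MultilinearMap.map_sum]
  refine Submodule.sum_mem _ fun r _ => ?_
  rw [MultilinearMap.map_smul_univ]
  apply Submodule.smul_mem
  change exteriorPower.ιMulti (RR p) 3 ((fun i => dd p (![a0, a1, b0] i)) ∘ r) ∈ _
  by_cases hr : Function.Injective r
  · let σ : Equiv.Perm (Fin 3) := Equiv.ofBijective r (Finite.injective_iff_bijective.mp hr)
    have := (exteriorPower.ιMulti (RR p) 3).map_perm (fun i => dd p (![a0, a1, b0] i)) σ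
    rw [show r = ⇑σ from rfl, this, Units.smul_def]
    exact Submodule.smul_of_tower_mem _ _ (Submodule.mem_span_singleton_self _)
  · rw [AlternatingMap.map_eq_zero_of_not_injective _ _ fun h => hr h.of_comp]
    exact zero_mem _

lemma ext_induction (P : Submodule (RR p) (⋀[RR p]^3 Ω[RR p⁄ZMod p]))
    (h : ∀ w : Fin 3 → sig, exteriorPower.ιMulti _ 3 (fun i => dd p (w i)) ∈ P) (m) : m ∈ P := by
  have : (⊤ : Submodule (RR p) _) ≤ P := by
    rw [← exteriorPower.ιMulti_span_of_span (RR p) 3 _ (span_dd p), Submodule.span_le]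
    rintro _ ⟨a, ha, rfl⟩
    have : ∀ i, ∃ w, dd p w = a i := fun i => ha ⟨i, rfl⟩
    choose w hw using this
    have e : a = fun i => dd p (w i) := funext fun i => (hw i).symm
    rw [e]
    exact h w
  exact this trivial

lemma rank_one_ext (m : ⋀[RR p]^3 Ω[RR p⁄ZMod p]) :
    ∃ b : RR p, b ≠ 0 ∧ ∃ r : RR p, b • m = r • mu p := by
  let P : Submodule (RR p) (⋀[RR p]^3 Ω[RR p⁄ZMod p]) :=
    { carrier := {m | ∃ b : RR p, b ≠ 0 ∧ ∃ r : RR p, b • m = r • mu p}
      add_mem' := by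
        rintro x y ⟨b, hb, r, h⟩ ⟨c, hc, s, h'⟩
        refine ⟨b * c, mul_ne_zero hb hc, c * r + b * s, ?_⟩
        rw [smul_add, mul_comm b c, mul_smul, h, mul_comm c b, mul_smul, h', add_smul, mul_smul,
          mul_smul]
      zero_mem' := ⟨1, one_ne_zero, 0, by simp⟩
      smul_mem' := by
        rintro c x ⟨b, hb, r, h⟩
        exact ⟨b, hb, c * r, by rw [smul_comm, h, mul_smul]⟩ }
  refine ext_induction p P (fun w => ?_) m
  choose b hb hb2 using fun i => sat_dd p (w i)
  obtain ⟨r, hr⟩ := Submodule.mem_span_singleton.mp (iMulti_mem p _ hb2)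
  refine ⟨∏ i, b i, Finset.prod_ne_zero_iff.mpr fun i _ => hb i, r, ?_⟩
  rw [hr, AlternatingMap.map_smul_univ]

/-- the two test monomials -/
def u1 : M := (1, 1, 3)
def u2 : M := (2, 5, 3)

/-- minus the toric canonical divisor -/
noncomputable def aK (P : PrimeDiv (RR p)) : ℤ :=
  min (ordAt (RR p) P (XX p u1)) (ordAt (RR p) P (XX p u2))

lemma aK_finite : {P | aK p P ≠ 0}.Finite := by
  refine ((finite_ord (XX_ne p u1)).union (finite_ord (XX_ne p u2))).subset ?_
  intro P hP
  by_contra h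
  simp only [Set.mem_union, Set.mem_ofPred_eq, not_or, not_not] at h
  apply hP
  simp [aK, h.1, h.2]

lemma ord_nonneg_of_InK {h : KK p} (h0 : h ≠ 0) (hh : InK p sig h) (P : PrimeDiv (RR p)) :
    0 ≤ ordAt (RR p) P h := by
  obtain ⟨r, rfl⟩ := hh.exists_alg
  exact ordAt_alg_nonneg P (by rintro rfl; simp at h0)

lemma aK_nonneg (P : PrimeDiv (RR p)) : 0 ≤ aK p P :=
  le_min (ord_nonneg_of_InK p (XX_ne p _) (InK.X (mem_sig.mpr (by decide))) P)
    (ord_nonneg_of_InK p (XX_ne p _) (InK.X (mem_sig.mpr (by decide))) P)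

lemma InK_of_ord {h : KK p} (hh : ∀ P, 0 ≤ ordAt (RR p) P h) : InK p sig h := by
  obtain ⟨r, rfl⟩ := mem_range_of_ord hh
  exact InK.alg r

lemma AA_iff (N : ℕ) {h : KK p} :
    InK p (AA N) h ↔ h ∈ divMod (RR p) fun P => N * aK p P := by
  by_cases h0 : h = 0
  · rw [h0]; exact ⟨fun _ => zero_mem _, fun _ => InK.zero⟩
  have ho : ∀ u P, ordAt (RR p) P (h * XX p (N • u)) =
      ordAt (RR p) P h + N * ordAt (RR p) P (XX p u) := fun u P => by
    rw [ordAt_mul P h0 (XX_ne p _), XX_nsmul, ordAt_pow P (XX_ne p _)]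
  rw [mem_divMod]
  constructor
  · intro hh
    right
    intro P
    have h1 := ord_nonneg_of_InK p (mul_ne_zero h0 (XX_ne p (N • u1)))
      (hh.mul (InK.X (A := {N • u1}) rfl) (by
        rintro ⟨a, b, c⟩ ha _ rfl
        simp only [AA, Set.mem_ofPred_eq] at ha
        simp only [SetLike.mem_coe, mem_sig, u1, Prod.smul_mk, nsmul_eq_mul, Prod.mk_add_mk]
        omega)) P
    have h2 := ord_nonneg_of_InK p (mul_ne_zero h0 (XX_ne p (N • u2)))
      (hh.mul (InK.X (A := {N • u2}) rfl) (by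
        rintro ⟨a, b, c⟩ ha _ rfl
        simp only [AA, Set.mem_ofPred_eq] at ha
        simp only [SetLike.mem_coe, mem_sig, u2, Prod.smul_mk, nsmul_eq_mul, Prod.mk_add_mk]
        omega)) P
    rw [ho] at h1 h2
    rw [aK]
    rcases le_total (ordAt (RR p) P (XX p u1)) (ordAt (RR p) P (XX p u2)) with h3 | h3
    · rwa [min_eq_left h3]
    · rwa [min_eq_right h3]
  · intro hh
    have hh := hh.resolve_left h0
    have h1 := (InK_of_ord p (h := h * XX p (N • u1)) fun P => by
      have := hh P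
      have : (N : ℤ) * aK p P ≤ N * ordAt (RR p) P (XX p u1) :=
        mul_le_mul_of_nonneg_left (min_le_left _ _) (by positivity)
      rw [ho]; omega).shift
    have h2 := (InK_of_ord p (h := h * XX p (N • u2)) fun P => by
      have := hh P
      have : (N : ℤ) * aK p P ≤ N * ordAt (RR p) P (XX p u2) :=
        mul_le_mul_of_nonneg_left (min_le_right _ _) (by positivity)
      rw [ho]; omega).shift
    refine (h1.inter ?_ h2).mono ?_
    · intro w hw a ha
      change w + a + _ ∈ sig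
      rw [add_right_comm]
      exact add_mem hw ha
    · rintro ⟨a, b, c⟩ ⟨h3, h4⟩
      simp only [Set.mem_ofPred_eq, SetLike.mem_coe, mem_sig, u1, u2, Prod.smul_mk, nsmul_eq_mul,
        Prod.mk_add_mk] at h3 h4
      simp only [AA, Set.mem_ofPred_eq]
      omega

lemma dt_AA (a b c : sig) (h : dt a.1 b.1 c.1 ≠ 0) : (a + b + c).1 ∈ AA (-1) := by
  obtain ⟨⟨a1, a2, a3⟩, ha⟩ := a
  obtain ⟨⟨b1, b2, b3⟩, hb⟩ := b
  obtain ⟨⟨c1, c2, c3⟩, hc⟩ := c
  rw [mem_sig] at ha hb hc
  simp only [dt] at *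
  simp only [AA, AddMemClass.mk_add_mk, Prod.mk_add_mk, Set.mem_ofPred_eq]
  refine ⟨?_, ?_, ?_, ?_⟩ <;> by_contra h0 <;> apply h
  · obtain ⟨rfl, rfl, rfl⟩ : a1 = 0 ∧ b1 = 0 ∧ c1 = 0 := by omega
    ring
  · obtain ⟨rfl, rfl, rfl⟩ : a2 = 0 ∧ b2 = 0 ∧ c2 = 0 := by omega
    ring
  · obtain ⟨rfl, rfl, rfl⟩ : a1 = a3 ∧ b1 = b3 ∧ c1 = c3 := by omega
    ring
  · obtain ⟨rfl, rfl, rfl⟩ : a2 = 2 * a3 ∧ b2 = 2 * b3 ∧ c2 = 2 * c3 := by omega
    ring

lemma jac_mu : jac p (mu p) = - xR p (a0 + a1 + b0) := by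
  rw [mu, jac_dd]
  have : dt a0.1 a1.1 b0.1 = -1 := by decide
  simp [this]

lemma dual_ext : Nonempty (Module.Dual (RR p) (⋀[RR p]^3 Ω[RR p⁄ZMod p]) ≃ₗ[RR p]
    divMod (RR p) (aK p)) := by
  refine dual_equiv (Algebra.linearMap (RR p) (KK p) ∘ₗ jac p) (mu p) ?_ (rank_one_ext p) _
    fun h => ?_
  · change algebraMap _ _ (jac p (mu p)) ≠ 0
    rw [jac_mu]
    exact algK_ne (neg_ne_zero.mpr (xR_ne p _))
  have e : aK p = fun P => (1 : ℕ) * aK p P := by simp
  constructor
  · intro hh m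
    rw [e, ← AA_iff] at hh
    let P : Submodule (RR p) (⋀[RR p]^3 Ω[RR p⁄ZMod p]) :=
      (LinearMap.range (Algebra.linearMap (RR p) (KK p))).comap
        (LinearMap.mulLeft (RR p) h ∘ₗ Algebra.linearMap (RR p) (KK p) ∘ₗ jac p)
    refine ext_induction p P (fun w => ?_) m
    change ∃ r, algebraMap _ (KK p) r = h * algebraMap _ _ (jac p _)
    rw [jac_dd]
    by_cases hd : dt (w 0).1 (w 1).1 (w 2).1 = 0
    · exact ⟨0, by simp [hd]⟩
    obtain ⟨r, hr⟩ := (hh.mul (InK.X (dt_AA _ _ _ hd)) (C := sig) (by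
      rintro ⟨a, b, c⟩ h1 ⟨d, e, f⟩ h2
      simp only [AA, Set.mem_ofPred_eq] at h1 h2
      simp only [SetLike.mem_coe, mem_sig, Prod.mk_add_mk]
      omega)).exists_alg
    exact ⟨(dt (w 0).1 (w 1).1 (w 2).1 : RR p) * r, by rw [map_mul, map_mul, hr, xR_alg]; ring⟩
  · intro hh
    by_cases h0 : h = 0
    · rw [h0]; exact zero_mem _
    refine mem_divMod.mpr (Or.inr fun P => ?_)
    obtain ⟨r, hr⟩ := hh (mu p)
    obtain ⟨s, hs⟩ := hh (exteriorPower.ιMulti _ 3 fun i => dd p (![b1, b2, a2] i))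
    change _ = h * algebraMap _ _ (jac p _) at hr hs
    rw [jac_mu] at hr
    rw [jac_dd] at hs
    have d2 : dt b1.1 b2.1 a2.1 = 1 := by decide
    have hr' : algebraMap _ _ (-r) = h * XX p u1 := by
      rw [map_neg, hr, map_neg, xR_alg, mul_neg, neg_neg]; rfl
    have hs' : algebraMap _ _ s = h * XX p u2 := by
      rw [hs]
      simp only [Matrix.cons_val_zero, Matrix.cons_val_one, Matrix.cons_val, d2, Int.cast_one,
        one_mul, xR_alg]
      rfl
    have h1 := ord_nonneg_of_InK p (mul_ne_zero h0 (XX_ne p u1)) (hr' ▸ InK.alg _) P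
    have h2 := ord_nonneg_of_InK p (mul_ne_zero h0 (XX_ne p u2)) (hs' ▸ InK.alg _) P
    rw [ordAt_mul P h0 (XX_ne p _)] at h1 h2
    rw [aK]
    omega

lemma bidual_ext : Nonempty (Module.Dual (RR p) (Module.Dual (RR p) (⋀[RR p]^3 Ω[RR p⁄ZMod p]))
    ≃ₗ[RR p] divMod (RR p) fun P => - aK p P) := by
  obtain ⟨e1⟩ := dual_ext p
  obtain ⟨e2⟩ := dual_divMod (aK p) (aK_finite p) (aK_nonneg p)
  exact ⟨e1.symm.dualMap.trans e2⟩

lemma exists_canonical : ∃ K, IsCanonicalDivisor (RR p) (ZMod p) 3 K := by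
  obtain ⟨e⟩ := bidual_ext p
  refine ⟨Finsupp.ofSupportFinite (fun P => - aK p P) ((aK_finite p).subset fun P hP => ?_),
    ⟨⟨e.symm⟩⟩⟩
  simpa using hP

lemma canonical_eq {K : PrimeDiv (RR p) →₀ ℤ} (hK : IsCanonicalDivisor (RR p) (ZMod p) 3 K) :
    ∃ c : KK p, c ≠ 0 ∧ ∀ P, K P = - aK p P + ordAt (RR p) P c := by
  obtain ⟨e⟩ := bidual_ext p
  obtain ⟨⟨e'⟩⟩ := hK
  exact eq_of_equiv K _ K.hasFiniteSupport ((aK_finite p).subset fun P hP => by simpa using hP)
    (e'.trans e)

end Pool.Agent.MP_ccce09_ag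

end

-- part MP_ccce09_ag.Pair
section

/-! Upper bound for the splitting numbers of pairs. -/

set_option autoImplicit false
set_option linter.style.haveILetI false
set_option linter.unusedSectionVars false

open AddMonoidAlgebra Filter Topology
open scoped ENNReal

namespace Pool.Agent.MP_ccce09_ag

variable {p : ℕ} [Fact p.Prime] (e : ℕ)

lemma push_smul {N : Type} [AddCommGroup N] [Module (RR p) N]
    (φ : frobPush (RR p) p e N →ₗ[RR p] RR p) (r : RR p) (x : N) :
    φ (r ^ p ^ e • x : N) = r * φ x := by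
  rw [← smul_eq_mul, ← map_smul]
  rfl

lemma rep_of_hom (ψ : frobPush (RR p) p e (RR p) →ₗ[RR p] RR p) :
    ∃ h : KK p, ∀ r : RR p, algebraMap _ (KK p) (ψ r) = Phi e (h * algebraMap _ (KK p) r) :=
  exists_rep e (fun r => ψ r) (fun x y => map_add ψ x y) (fun r x => push_smul e ψ r x)

/-- the map `F^e_* R → R` given by premultiplying `Phi` -/
noncomputable def phiR {h : KK p} (hh : InK p (AA ((p : ℤ) ^ e - 1)) h) (r : RR p) : RR p :=
  (Phi_mem_of_AA e hh r).exists_alg.choose

lemma phiR_alg {h : KK p} (hh : InK p (AA ((p : ℤ) ^ e - 1)) h) (r : RR p) :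
    algebraMap _ (KK p) (phiR e hh r) = Phi e (h * algebraMap _ _ r) :=
  (Phi_mem_of_AA e hh r).exists_alg.choose_spec

noncomputable def phiL {h : KK p} (hh : InK p (AA ((p : ℤ) ^ e - 1)) h) :
    frobPush (RR p) p e (RR p) →ₗ[RR p] RR p where
  toFun r := phiR e hh r
  map_add' x y := IsFractionRing.injective _ (KK p) (by
    rw [map_add, phiR_alg, phiR_alg, phiR_alg, ← Phi_add, ← mul_add, ← map_add]; rfl)
  map_smul' r x := IsFractionRing.injective _ (KK p) (by
    change algebraMap _ _ (phiR e hh (r ^ p ^ e * (show RR p from x))) =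
      algebraMap _ _ (r * phiR e hh x)
    rw [map_mul, phiR_alg, phiR_alg, map_mul, map_pow, mul_left_comm, Phi_mul])

/-- reduction of a `p^{-e}`-linear map to the residue field -/
noncomputable def red (ψ : frobPush (RR p) p e (RR p) →ₗ[RR p] RR p) : RR p →ₗ[ZMod p] ZMod p where
  toFun r := evR p (ψ r)
  map_add' x y := by rw [← map_add]; exact congrArg _ (map_add ψ x y)
  map_smul' c x := by
    have := push_smul e ψ (algebraMap (ZMod p) _ c) x
    rw [← map_pow, ZMod.pow_card_pow, algebraMap_smul] at this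
    rw [this, map_mul, evR_const]
    rfl

lemma cast_q : ((p ^ e - 1 : ℕ) : ℤ) = (p : ℤ) ^ e - 1 := by
  rw [Nat.cast_sub (q_pos e)]; simp

lemma AA_iff' {h : KK p} : InK p (AA ((p : ℤ) ^ e - 1)) h ↔
    h ∈ divMod (RR p) fun P => ((p : ℤ) ^ e - 1) * aK p P := by
  rw [← cast_q, AA_iff]

lemma pair_rep {Δ : PrimeDiv (RR p) →₀ ℚ} {g : KK p} (hg : g ≠ 0)
    (H : ∀ P, ((p : ℚ) ^ e - 1) * Δ P = (ordAt _ P g + ((p : ℤ) ^ e - 1) * aK p P : ℤ))
    {ψ : frobPush (RR p) p e (RR p) →ₗ[RR p] RR p} (hψ : ψ ∈ pairHom (RR p) p Δ e) :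
    ∃ r0 : RR p, ∀ r : RR p,
      algebraMap _ (KK p) (ψ r) = Phi e (g * algebraMap _ (KK p) (r * r0)) := by
  obtain ⟨h, hh⟩ := rep_of_hom e ψ
  obtain ⟨φ, hφ⟩ := ExtendsTo.out hψ
  let D : PrimeDiv (RR p) → ℤ := fun P => ⌈((p : ℚ) ^ e - 1) * Δ P⌉
  have hD' : ∀ P, D P = ordAt _ P g + ((p : ℤ) ^ e - 1) * aK p P := fun P => by
    simp only [D]; rw [H, Int.ceil_intCast]
  have hφ' : ∀ y : divMod (RR p) D, algebraMap _ (KK p) (φ y) = Phi e (h * (y : KK p)) := by
    intro y
    obtain ⟨⟨a, b⟩, hab⟩ := IsLocalization.surj (nonZeroDivisors (RR p)) (y : KK p)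
    simp only at hab
    have hb := nonZeroDivisors.coe_ne_zero b
    have h1 := hφ (a * b ^ (p ^ e - 1)) ((b : RR p) ^ p ^ e • y) (by
      rw [Submodule.coe_smul, Algebra.smul_def, map_mul, ← hab, map_pow, map_pow, mul_assoc,
        ← pow_succ', Nat.sub_add_cancel (q_pos e), mul_comm])
    have h2 := hh (a * b ^ (p ^ e - 1))
    rw [← h1, push_smul, map_mul, map_mul, ← hab, map_pow, mul_assoc, ← pow_succ',
      Nat.sub_add_cancel (q_pos e), mul_comm (y : KK p), mul_left_comm, Phi_mul] at h2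
    exact mul_left_cancel₀ (algK_ne hb) h2
  by_cases h0 : h = 0
  · exact ⟨0, fun r => by rw [hh, h0]; simp⟩
  have hfin : {P | D P ≠ 0}.Finite := by
    refine Δ.hasFiniteSupport.subset fun P hP h1 => hP ?_
    simp only [D]; rw [h1]; simp
  obtain ⟨r0, hr0⟩ := mem_range_of_ord (f := h * g⁻¹) fun P => by
    have := ord_of_colon D _ hfin h0 (fun y hy => (AA_iff' e).mp (AA_of_Phi_mem e fun r => by
      have := hφ' (r • ⟨y, hy⟩)
      rw [Submodule.coe_smul, Algebra.smul_def, mul_comm _ y, ← mul_assoc] at this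
      rw [← this]
      exact InK.alg _)) P
    rw [ordAt_mul P h0 (inv_ne_zero hg), ordAt_inv P hg]
    rw [hD'] at this
    omega
  refine ⟨r0, fun r => ?_⟩
  rw [hh, map_mul, hr0]
  congr 1
  field_simp

/-- ideal of elements supported in degree at least `a` -/
def degI (a : ℕ) : Ideal (RR p) where
  carrier := {r | InK p {w | w ∈ sig ∧ (a : ℤ) ≤ w.2.2} (algebraMap _ (KK p) r)}
  add_mem' := fun {x y} hx hy => by
    change InK p _ _
    rw [map_add]
    refine InK.add ?_ hx hy
    rintro w ⟨h1, h2⟩ v hv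
    have := deg_nonneg ⟨v, hv⟩
    exact ⟨add_mem h1 hv, by simp only [Prod.snd_add] at *; omega⟩
  zero_mem' := by change InK p _ _; rw [map_zero]; exact InK.zero
  smul_mem' := fun c x hx => by
    change InK p _ _
    rw [smul_eq_mul, map_mul, mul_comm]
    refine InK.mul hx (InK.alg c) ?_
    rintro w ⟨h1, h2⟩ v hv
    have := deg_nonneg ⟨v, hv⟩
    exact ⟨add_mem h1 hv, by simp only [Prod.snd_add] at *; omega⟩

lemma pair_len {Δ : PrimeDiv (RR p) →₀ ℚ} (hΔ : ∀ P, 0 ≤ Δ P) {g : KK p} (hg : g ≠ 0)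
    (H : ∀ P, ((p : ℚ) ^ e - 1) * Δ P = (ordAt _ P g + ((p : ℤ) ^ e - 1) * aK p P : ℤ))
    (a : ℕ) (ha : p ^ e ≤ 2 * a) :
    Module.length (RR p) (RR p ⧸ pairIdeal (RR p) p Δ e) ≤ (2 * (Low a).card : ℕ) := by
  have hq : (1 : ℚ) ≤ (p : ℚ) ^ e := by exact_mod_cast q_pos (p := p) e
  have hA : InK p (AA ((p : ℤ) ^ e - 1)) g := (AA_iff' e).mpr (mem_divMod.mpr (Or.inr fun P => by
    have h1 : 0 ≤ ((p : ℚ) ^ e - 1) * Δ P := mul_nonneg (by linarith) (hΔ P)
    rw [H] at h1
    exact_mod_cast h1))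
  let lam := red e (phiL e hA)
  let J : Ideal (RR p) :=
    { carrier := {x | ∀ r, lam (x * r) = 0}
      add_mem' := fun {x y} hx hy r => by rw [add_mul, map_add, hx, hy, add_zero]
      zero_mem' := fun r => by simp
      smul_mem' := fun c x hx r => by rw [smul_eq_mul, mul_comm c, mul_assoc]; exact hx _ }
  have hle : J ≤ pairIdeal (RR p) p Δ e := by
    intro x hx
    refine Ideal.subset_span fun ψ hψ => ?_
    obtain ⟨r0, h0⟩ := pair_rep e hg H hψ
    have : ψ x = phiR e hA (x * r0) :=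
      IsFractionRing.injective _ (KK p) (by rw [h0, phiR_alg])
    rw [this, ← evR_eq_zero]
    exact hx r0
  have h1 := gor_bound lam J (degI a) (fun _ => Iff.rfl) (fun x hx y hy => by
      refine evR_eq_zero.mpr (InK.mem_max ?_)
      change InK p _ (algebraMap _ _ (phiR e hA (x * y)))
      rw [phiR_alg, map_mul]
      refine Phi_mem_max e hA (InK.mul hx hy ?_)
      rintro v ⟨h1, h2⟩ w ⟨h3, h4⟩
      refine ⟨add_mem h1 h3, ?_⟩
      have : ((p : ℤ) ^ e) ≤ 2 * a := by exact_mod_cast ha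
      simp only [Out, Prod.snd_add, Prod.fst_add]
      omega)
    (comb p (Low a)) (fun r => approx (A := {w | w ∈ sig ∧ (a : ℤ) ≤ w.2.2}) (by
      rintro w ⟨h1, h2⟩ v hv
      have := deg_nonneg ⟨v, hv⟩
      exact ⟨add_mem h1 hv, by simp only [Prod.snd_add] at *; omega⟩) a (fun w h1 h2 => ⟨h1, h2⟩)
      (Low a) (fun w h1 h2 => mem_Low.mpr ⟨h1, by by_contra h3; exact h2 ⟨h1, by omega⟩⟩) r)
  rw [Module.finrank_fintype_fun_eq_card, Fintype.card_coe] at h1
  exact (Module.length_le_of_surjective (Submodule.factor hle)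
    (Submodule.factor_surjective hle)).trans h1

lemma tendsto_bound (c a b d : ℝ) :
    Tendsto (fun e : ℕ => ENNReal.ofReal (c + a / p ^ e + b / (p ^ e) ^ 2 + d / (p ^ e) ^ 3)) atTop
      (𝓝 (ENNReal.ofReal c)) := by
  apply ENNReal.tendsto_ofReal
  have hp : (1 : ℝ) < p := by exact_mod_cast (Fact.out : p.Prime).one_lt
  have h1 : Tendsto (fun e : ℕ => ((p : ℝ) ^ e)⁻¹) atTop (𝓝 0) :=
    (tendsto_pow_atTop_atTop_of_one_lt hp).inv_tendsto_atTop
  have := ((tendsto_const_nhds (x := c)).add (h1.const_mul a)).add ((h1.pow 2).const_mul b) |>.add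
    ((h1.pow 3).const_mul d)
  simpa [div_eq_mul_inv] using this

lemma div_eq_ofReal (n : ℕ) : ((n : ℕ∞) : ℝ≥0∞) / (p : ℝ≥0∞) ^ (e * 3) =
    ENNReal.ofReal (n / ((p : ℝ) ^ e) ^ 3) := by
  have hq : (0 : ℝ) < (p : ℝ) ^ e := by exact_mod_cast q_pos (p := p) e
  rw [ENNReal.ofReal_div_of_pos (by positivity), ENNReal.ofReal_natCast, ← pow_mul,
    ENNReal.ofReal_pow (by positivity), ENNReal.ofReal_natCast]
  rfl

theorem pair_bound {K : PrimeDiv (RR p) →₀ ℤ} (hK : IsCanonicalDivisor (RR p) (ZMod p) 3 K)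
    {Δ : PrimeDiv (RR p) →₀ ℚ} (hΔ : ∀ P, 0 ≤ Δ P) (hQ : QCartierPrimeTo (RR p) p K Δ) :
    liminf (pairSeq (RR p) p Δ 3) atTop ≤ 1 / 6 := by
  obtain ⟨c, hc, hKc⟩ := canonical_eq p hK
  obtain ⟨n, hn, hpn, g, hg, hgo⟩ := hQ
  have hcop : Nat.Coprime p n := (Nat.Prime.coprime_iff_not_dvd Fact.out).mpr hpn
  have hfreq : ∃ᶠ e in atTop, pairSeq (RR p) p Δ 3 e ≤
      ENNReal.ofReal (1 / 6 + (3 / 4) / p ^ e + 1 / (p ^ e) ^ 2 + (5 / 12) / (p ^ e) ^ 3) := by
    rw [frequently_atTop]
    intro m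
    have ht : 0 < n.totient := Nat.totient_pos.mpr hn
    refine ⟨n.totient * m, Nat.le_mul_of_pos_left _ ht, ?_⟩
    set e := n.totient * m with he
    have hd : n ∣ p ^ e - 1 := by
      have := (Nat.ModEq.pow_totient hcop).pow m
      rw [← pow_mul, one_pow] at this
      exact (Nat.modEq_iff_dvd' (q_pos _)).mp this.symm
    obtain ⟨t, ht⟩ := hd
    have ht' : (p : ℚ) ^ e - 1 = n * t := by
      have := cast_q (p := p) e
      rw [ht] at this
      exact_mod_cast this.symm
    have h1 := pair_len e hΔ (g := g ^ t * (c ^ (p ^ e - 1))⁻¹)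
      (mul_ne_zero (pow_ne_zero _ hg) (inv_ne_zero (pow_ne_zero _ hc))) (fun P => by
        rw [ordAt_mul P (pow_ne_zero _ hg) (inv_ne_zero (pow_ne_zero _ hc)),
          ordAt_inv P (pow_ne_zero _ hc), ordAt_pow P hg, ordAt_pow P hc, cast_q]
        push_cast
        rw [hgo, hKc, ht']
        push_cast
        ring) ((p ^ e + 1) / 2) (by omega)
    have h2 := card_Low ((p ^ e + 1) / 2)
    have hq : (0 : ℝ) < (p : ℝ) ^ e := by exact_mod_cast q_pos (p := p) e
    calc pairSeq (RR p) p Δ 3 e ≤ (((2 * (Low ((p ^ e + 1) / 2)).card : ℕ) : ℕ∞) : ℝ≥0∞) /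
          (p : ℝ≥0∞) ^ (e * 3) := by
          unfold pairSeq
          gcongr
      _ = _ := div_eq_ofReal e _
      _ ≤ _ := by
        apply ENNReal.ofReal_le_ofReal
        have h3 : 2 * ((p ^ e + 1) / 2) ≤ p ^ e + 1 := by omega
        generalize (p ^ e + 1) / 2 = a at h2 h3
        have h4 : 2 * (a : ℝ) ≤ p ^ e + 1 := by exact_mod_cast h3
        have h5 : 6 * ((Low a).card : ℝ) + a = 4 * a ^ 3 + 3 * a ^ 2 := by exact_mod_cast h2
        generalize (p : ℝ) ^ e = q at *
        have h6 : (0 : ℝ) ≤ a := by positivity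
        have h7 : (2 * (a : ℝ)) ^ 3 ≤ (q + 1) ^ 3 := by gcongr
        have h8 : (2 * (a : ℝ)) ^ 2 ≤ (q + 1) ^ 2 := by gcongr
        rw [div_le_iff₀ (by positivity)]
        have : (1 / 6 + 3 / 4 / q + 1 / q ^ 2 + 5 / 12 / q ^ 3) * q ^ 3 =
            (q + 1) ^ 3 / 6 + (q + 1) ^ 2 / 4 := by field_simp; ring
        rw [this]
        push_cast
        nlinarith
  have := (tendsto_bound (p := p) (1 / 6) (3 / 4) 1 (5 / 12))
  have e6 : ENNReal.ofReal (1 / 6) = 1 / 6 := by
    rw [ENNReal.ofReal_div_of_pos (by norm_num)]; simp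
  rw [← e6]
  refine le_of_forall_gt_imp_ge_of_dense fun x hx => ?_
  exact liminf_le_of_frequently_le' ((hfreq.and_eventually (this.eventually (gt_mem_nhds hx))).mono
    fun e h => h.1.trans h.2.le)

end Pool.Agent.MP_ccce09_ag

end

-- part MP_ccce09_ag.Sig
section

/-! The splitting numbers of the ring. -/

set_option autoImplicit false
set_option linter.style.haveILetI false
set_option linter.unusedSectionVars false

open AddMonoidAlgebra Filter Topology
open scoped ENNReal

namespace Pool.Agent.MP_ccce09_ag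

variable {p : ℕ} [Fact p.Prime] (e : ℕ)

lemma Up_out (q : ℤ) : Up {w | w ∈ sig ∧ Out q w} := by
  rintro ⟨a, b, c⟩ h ⟨d, e, f⟩ h'
  simp only [Out, mem_sig, Set.mem_ofPred_eq, Prod.mk_add_mk] at *
  omega

lemma mem_Box' {w : M} : w ∈ Box (p ^ e) ↔ w ∈ sig ∧ ¬ Out ((p : ℤ) ^ e) w := by
  rw [mem_Box]; push_cast; rfl

lemma rank_le (n : ℕ) (i : (Fin n → RR p) →ₗ[RR p] frobPush (RR p) p e (RR p))
    (π : frobPush (RR p) p e (RR p) →ₗ[RR p] (Fin n → RR p)) (h : π ∘ₗ i = LinearMap.id) :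
    n ≤ (Box (p ^ e)).card := by
  let Λ : RR p →ₗ[ZMod p] (Fin n → ZMod p) :=
    LinearMap.pi fun j => red e (LinearMap.proj j ∘ₗ π)
  have hker : ∀ r : RR p, InK p {w | w ∈ sig ∧ Out (p ^ e) w} (algebraMap _ (KK p) r) →
      Λ r = 0 := by
    intro r hr
    funext j
    obtain ⟨g, hg⟩ := rep_of_hom e (LinearMap.proj j ∘ₗ π)
    refine evR_eq_zero.mpr (InK.mem_max ?_)
    rw [hg]
    exact Phi_mem_max e (AA_of_Phi_mem e fun r => by rw [← hg]; exact InK.alg _) hr
  have hsurj : Function.Surjective (Λ ∘ₗ comb p (Box (p ^ e))) := by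
    intro v
    obtain ⟨u, hu⟩ := approx (Up_out ((p : ℤ) ^ e)) (p ^ e) (fun w h1 h2 => ⟨h1, by
        push_cast at h2
        simp only [Out]
        omega⟩) (Box (p ^ e))
      (fun w h1 h2 => (mem_Box' e).mpr ⟨h1, fun h3 => h2 ⟨h1, h3⟩⟩)
      (i fun j => algebraMap _ _ (v j))
    have := hker _ hu
    rw [map_sub, sub_eq_zero] at this
    refine ⟨u, this.symm.trans ?_⟩
    funext j
    have h2 := congrFun (LinearMap.congr_fun h fun j => algebraMap _ _ (v j)) j
    exact (congrArg (evR p) h2).trans (evR_const _)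
  simpa using LinearMap.finrank_le_finrank_of_surjective hsurj

lemma box_AA {w : M} (hw : w ∈ Box (p ^ e)) : -w ∈ AA ((p : ℤ) ^ e - 1) := by
  obtain ⟨-, h⟩ := (mem_Box' e).mp hw
  simp only [Out, AA, Set.mem_ofPred_eq, Prod.fst_neg, Prod.snd_neg] at *
  omega

lemma box_unique {w w' v : M} (h : w ∈ Box (p ^ e)) (h' : w' ∈ Box (p ^ e))
    (hv : -w + w' = (p ^ e) • v) : w = w' := by
  rw [mem_Box', mem_sig] at h h'
  simp only [Out] at h h'
  rw [q_smul] at hv
  have hq := qz_pos (p := p) e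
  have e1 := congrArg (fun x : M => x.1) hv
  have e2 := congrArg (fun x : M => x.2.1) hv
  have e3 := congrArg (fun x : M => x.2.2) hv
  simp only [Prod.fst_add, Prod.snd_add, Prod.fst_neg, Prod.snd_neg] at e1 e2 e3
  have a1 := small_mul (x := v.1) hq (by omega) (by omega)
  have a2 := small_mul (x := v.2.1) hq (by omega) (by omega)
  have a3 := small_mul (x := v.2.2) hq (by omega) (by omega)
  rw [a1] at e1; rw [a2] at e2; rw [a3] at e3
  ext <;> omega

lemma freeRank_eq : freeRank (RR p) (frobPush (RR p) p e (RR p)) = (Box (p ^ e)).card := by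
  apply le_antisymm
  · refine iSup_le fun n => iSup_le ?_
    rintro ⟨i, π, h⟩
    exact_mod_cast rank_le e n i π h
  · refine le_iSup₂_of_le (f := fun (n : ℕ) (_ : ∃ (i : (Fin n → RR p) →ₗ[RR p]
      frobPush (RR p) p e (RR p)) (π : frobPush (RR p) p e (RR p) →ₗ[RR p] (Fin n → RR p)),
      π ∘ₗ i = LinearMap.id) => (n : ℕ∞)) (Box (p ^ e)).card ?_ le_rfl
    let σ := (Box (p ^ e)).equivFin.symm
    let x : Fin (Box (p ^ e)).card → frobPush (RR p) p e (RR p) := fun j => xM p (σ j).1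
    refine ⟨Fintype.linearCombination _ x,
      LinearMap.pi fun j => phiL e (InK.X (box_AA e (σ j).2)), ?_⟩
    refine LinearMap.pi_ext fun j c => ?_
    funext k
    rw [LinearMap.comp_apply, Fintype.linearCombination_apply_single, map_smul]
    change c * phiR e (InK.X (box_AA e (σ k).2)) (xM p (σ j).1) =
      Pi.single (M := fun _ => RR p) j c k
    apply IsFractionRing.injective _ (KK p)
    rw [map_mul, phiR_alg, xM_alg ((mem_Box' e).mp (σ j).2).1, ← XX_add]
    by_cases hjk : k = j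
    · subst hjk
      rw [neg_add_cancel, ← smul_zero (p ^ e), Phi_X, XX_zero, mul_one, Pi.single_eq_same]
    · rw [Phi_X_not, mul_zero, Pi.single_eq_of_ne hjk, map_zero]
      intro v hv
      exact hjk (σ.injective (Subtype.ext (box_unique e (σ k).2 (σ j).2 hv)))

lemma length_res :
    Module.length (RR p) (frobPush (RR p) p e (IsLocalRing.ResidueField (RR p))) = 1 := by
  haveI : Nontrivial (frobPush (RR p) p e (IsLocalRing.ResidueField (RR p))) :=
    inferInstanceAs (Nontrivial (IsLocalRing.ResidueField (RR p)))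
  haveI : IsSimpleModule (RR p) (frobPush (RR p) p e (IsLocalRing.ResidueField (RR p))) := by
    rw [isSimpleModule_iff_toSpanSingleton_surjective]
    refine ⟨inferInstance, fun x hx y => ?_⟩
    obtain ⟨c, hc⟩ := residue_surj (p := p) ((show IsLocalRing.ResidueField (RR p) from y) /
      (show IsLocalRing.ResidueField (RR p) from x))
    refine ⟨algebraMap (ZMod p) _ c, ?_⟩
    change (algebraMap (ZMod p) (RR p) c) ^ p ^ e • (show IsLocalRing.ResidueField (RR p) from x) =
      (show IsLocalRing.ResidueField (RR p) from y)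
    rw [← map_pow, ZMod.pow_card_pow, algebraMap_smul, Algebra.smul_def, hc]
    exact div_mul_cancel₀ _ hx
  exact Module.length_eq_one _ _

theorem fsig : Tendsto (fsigSeq (RR p) p 3) atTop (𝓝 (1 / 4)) := by
  have e4 : ENNReal.ofReal (1 / 4) = 1 / 4 := by
    rw [ENNReal.ofReal_div_of_pos (by norm_num)]; simp
  have key : ∀ e, fsigSeq (RR p) p 3 e =
      ENNReal.ofReal ((Box (p ^ e)).card / ((p : ℝ) ^ e) ^ 3) := fun e => by
    rw [fsigSeq, freeRank_eq, length_res, ← div_eq_ofReal]; simp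
  rw [← e4]
  refine tendsto_of_tendsto_of_tendsto_of_le_of_le tendsto_const_nhds
    (tendsto_bound (p := p) (1 / 4) (1 / 4) (1 / 4) (1 / 4)) (fun e => ?_) (fun e => ?_)
  all_goals
    rw [key]
    apply ENNReal.ofReal_le_ofReal
    have hq : (0 : ℝ) < (p : ℝ) ^ e := by exact_mod_cast q_pos (p := p) e
    obtain ⟨h1, h2⟩ := card_Box (p ^ e)
  · rw [le_div_iff₀ (by positivity)]
    have : ((p : ℝ) ^ e) ^ 3 ≤ 4 * (Box (p ^ e)).card := by exact_mod_cast h1
    linarith
  · rw [div_le_iff₀ (by positivity)]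
    have : 4 * ((Box (p ^ e)).card : ℝ) ≤ ((p : ℝ) ^ e + 1) * ((p ^ e) ^ 2 + 1) := by
      exact_mod_cast h2
    generalize (p : ℝ) ^ e = q at *
    have e2 : (1 / 4 + 1 / 4 / q + 1 / 4 / q ^ 2 + 1 / 4 / q ^ 3) * q ^ 3 =
        (q + 1) * (q ^ 2 + 1) / 4 := by field_simp; ring
    rw [e2]
    linarith

theorem ffinite : Module.Finite (RR p) (frobPush (RR p) p e (RR p)) := by
  classical
  let x : M → frobPush (RR p) p e (RR p) := xM p
  refine ⟨⟨(Low (2 * p ^ e)).image x, ?_⟩⟩
  set N := Submodule.span (RR p) (SetLike.coe ((Low (2 * p ^ e)).image x))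
  have hs : ∀ (c r : RR p), (show frobPush (RR p) p e (RR p) from r) ∈ N →
      (show frobPush (RR p) p e (RR p) from c ^ p ^ e * r) ∈ N := fun c r h => N.smul_mem c h
  have hq := qz_pos (p := p) e
  have hmon : ∀ n : ℕ, ∀ w ∈ sig, w.2.2 < n → x w ∈ N := by
    intro n
    induction n with
    | zero => intro w hw h; have := deg_nonneg ⟨w, hw⟩; simp only at this; omega
    | succ n ih =>
      intro w hw h
      by_cases h2 : w.2.2 < (2 * p ^ e : ℕ)
      · exact Submodule.subset_span (Finset.mem_coe.mpr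
          (Finset.mem_image_of_mem x (mem_Low.mpr ⟨hw, h2⟩)))
      push_cast at h2
      obtain ⟨g, hg, hg1, hg2⟩ : ∃ g ∈ sig, g.2.2 = 1 ∧ w - (p ^ e) • g ∈ sig := by
        have := mem_sig.mp hw
        refine ⟨(if p ^ e ≤ w.1 then 1 else 0, if 2 * p ^ e ≤ w.2.1 then 2 else 0, 1), ?_, rfl, ?_⟩
        · rw [mem_sig]; simp only; split_ifs <;> omega
        · rw [q_smul, mem_sig]
          simp only [Prod.fst_sub, Prod.snd_sub]
          split_ifs <;> omega
      have h3 := hs (xM p g) _ (ih _ hg2 (by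
        rw [q_smul]; simp only [Prod.snd_sub, hg1]; omega))
      have : xM p g ^ p ^ e * xM p (w - (p ^ e) • g) = xM p w := by
        apply IsFractionRing.injective _ (KK p)
        rw [map_mul, map_pow, xM_alg hg, xM_alg hg2, xM_alg hw, ← XX_nsmul, ← XX_add,
          add_sub_cancel]
      change (show frobPush (RR p) p e (RR p) from xM p g ^ p ^ e * xM p (w - (p ^ e) • g)) ∈ N
        at h3
      rw [this] at h3
      exact h3
  have h0 : ∀ a : R0 p,
      (show frobPush (RR p) p e (RR p) from algebraMap (R0 p) (RR p) a) ∈ N := by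
    intro a
    induction a using AddMonoidAlgebra.induction_linear with
    | zero => rw [map_zero]; exact N.zero_mem
    | add a b ha hb => rw [map_add]; exact N.add_mem ha hb
    | single w c =>
      have : algebraMap (R0 p) (RR p) (single w c) =
          algebraMap (R0 p) (RR p) (single 0 c) ^ p ^ e * xM p w.1 := by
        rw [xM, dif_pos w.2, ← map_pow, ← map_mul, single_pow, single_mul_single,
          ZMod.pow_card_pow]
        simp
      rw [this]
      exact hs _ _ (hmon (w.1.2.2.toNat + 1) w.1 w.2 (by omega))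
  rw [eq_top_iff]
  intro r _
  obtain ⟨a, s, hs', e1⟩ := exists_frac_R (show RR p from r)
  obtain ⟨u, hu⟩ := unit_of_notMem hs'
  have h1 := hs (↑u⁻¹) _ (h0 (a * s ^ (p ^ e - 1)))
  have : (↑u⁻¹ : RR p) ^ p ^ e * algebraMap (R0 p) (RR p) (a * s ^ (p ^ e - 1)) = r := by
    rw [map_mul, ← e1, map_pow, mul_assoc, ← pow_succ', Nat.sub_add_cancel (q_pos e), ← hu,
      mul_left_comm, ← mul_pow]
    simp
  exact this ▸ h1

end Pool.Agent.MP_ccce09_ag

end
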